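import Pool.Agent.Lib.WE57b.Defs
import Pool.Agent.Lib.DPRM.Main

namespace WE57b

/-- Terms. -/
inductive DTm : Type
  | var (i : ℕ) : DTm
  | const (c : ℕ) : DTm
  | add (s t : DTm) : DTm
  | mul (s t : DTm) : DTm

/-- Value of a term. -/
def DTm.ev (x : ℕ → ℕ) : DTm → ℕ
  | .var i => x i
  | .const c => c
  | .add s t => s.ev x + t.ev x
  | .mul s t => s.ev x * t.ev x

/-- The variables of a term are below `m`. -/
def DTm.Below (m : ℕ) : DTm → Prop
  | .var i => i < m
  | .const _ => True
  | .add s t => s.Below m ∧ t.Below m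
  | .mul s t => s.Below m ∧ t.Below m

theorem DTm.Below.ev_congr {m : ℕ} {x y : ℕ → ℕ} (h : ∀ i < m, x i = y i) :
    ∀ {t : DTm}, t.Below m → t.ev x = t.ev y
  | .var i, ht => h i ht
  | .const _, _ => rfl
  | .add s t, ht => by
      simp only [DTm.ev]
      rw [DTm.Below.ev_congr h ht.1, DTm.Below.ev_congr h ht.2]
  | .mul s t, ht => by
      simp only [DTm.ev]
      rw [DTm.Below.ev_congr h ht.1, DTm.Below.ev_congr h ht.2]

/-- Compilation of terms: for every first free index `n` there are a list of equations, the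
index of the value and the next free index. -/
theorem D_compile (m : ℕ) (t : DTm) (ht : t.Below m) : ∀ n, m ≤ n →
    ∃ (L : List DEq) (j n' : ℕ), n ≤ n' ∧ j < n' ∧
      (∀ x : ℕ → ℕ, (∀ e ∈ L, e.Holds x) → x j = t.ev x) ∧
      (∀ x : ℕ → ℕ, ∃ y : ℕ → ℕ, (∀ i < n, y i = x i) ∧
        ∀ z : ℕ → ℕ, (∀ i < n', z i = y i) → ∀ e ∈ L, e.Holds z) := by
  induction t with
  | var i =>
    intro n hn
    refine ⟨[], i, n, le_rfl, lt_of_lt_of_le ht hn, fun x _ => rfl, fun x => ⟨x, fun _ _ => rfl,
      fun z _ e he => absurd he (by simp)⟩⟩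
  | const c =>
    intro n hn
    refine ⟨[DEq.const n c], n, n + 1, by omega, by omega, fun x hx => ?_, fun x =>
      ⟨Function.update x n c, fun i hi => Function.update_of_ne (by omega) _ _, ?_⟩⟩
    · exact hx (DEq.const n c) (by simp)
    · intro z hz e he
      simp only [List.mem_singleton] at he
      subst he
      change z n = c
      rw [hz n (by omega)]
      simp
  | add s t ihs iht =>
    intro n hn
    obtain ⟨L1, j1, n1, h1, hj1, hs1, hc1⟩ := ihs ht.1 n hn
    obtain ⟨L2, j2, n2, h2, hj2, hs2, hc2⟩ := iht ht.2 n1 (hn.trans h1)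
    refine ⟨L1 ++ L2 ++ [DEq.add j1 j2 n2], n2, n2 + 1, by omega, by omega, fun x hx => ?_,
      fun x => ?_⟩
    · have a1 := hs1 x fun e he => hx e (by simp [he])
      have a2 := hs2 x fun e he => hx e (by simp [he])
      have a3 : x j1 + x j2 = x n2 := hx (DEq.add j1 j2 n2) (by simp)
      simp only [DTm.ev]
      rw [← a1, ← a2, a3]
    · obtain ⟨y1, hy1, hz1⟩ := hc1 x
      obtain ⟨y2, hy2, hz2⟩ := hc2 y1
      refine ⟨Function.update y2 n2 (y2 j1 + y2 j2), fun i hi => ?_, fun z hz e he => ?_⟩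
      · rw [Function.update_of_ne (by omega), hy2 i (by omega), hy1 i hi]
      · have hzlt : ∀ i < n2, z i = y2 i := fun i hi => by
          rw [hz i (by omega), Function.update_of_ne (by omega)]
        rcases List.mem_append.1 he with he | he
        · rcases List.mem_append.1 he with he | he
          · exact hz1 z (fun i hi => by rw [hzlt i (by omega), hy2 i hi]) e he
          · exact hz2 z hzlt e he
        · simp only [List.mem_singleton] at he
          subst he
          change z j1 + z j2 = z n2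
          rw [hzlt j1 (by omega), hzlt j2 hj2, hz n2 (by omega), Function.update_self]
  | mul s t ihs iht =>
    intro n hn
    obtain ⟨L1, j1, n1, h1, hj1, hs1, hc1⟩ := ihs ht.1 n hn
    obtain ⟨L2, j2, n2, h2, hj2, hs2, hc2⟩ := iht ht.2 n1 (hn.trans h1)
    refine ⟨L1 ++ L2 ++ [DEq.mul j1 j2 n2], n2, n2 + 1, by omega, by omega, fun x hx => ?_,
      fun x => ?_⟩
    · have a1 := hs1 x fun e he => hx e (by simp [he])
      have a2 := hs2 x fun e he => hx e (by simp [he])
      have a3 : x j1 * x j2 = x n2 := hx (DEq.mul j1 j2 n2) (by simp)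
      simp only [DTm.ev]
      rw [← a1, ← a2, a3]
    · obtain ⟨y1, hy1, hz1⟩ := hc1 x
      obtain ⟨y2, hy2, hz2⟩ := hc2 y1
      refine ⟨Function.update y2 n2 (y2 j1 * y2 j2), fun i hi => ?_, fun z hz e he => ?_⟩
      · rw [Function.update_of_ne (by omega), hy2 i (by omega), hy1 i hi]
      · have hzlt : ∀ i < n2, z i = y2 i := fun i hi => by
          rw [hz i (by omega), Function.update_of_ne (by omega)]
        rcases List.mem_append.1 he with he | he
        · rcases List.mem_append.1 he with he | he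
          · exact hz1 z (fun i hi => by rw [hzlt i (by omega), hy2 i hi]) e he
          · exact hz2 z hzlt e he
        · simp only [List.mem_singleton] at he
          subst he
          change z j1 * z j2 = z n2
          rw [hzlt j1 (by omega), hzlt j2 hj2, hz n2 (by omega), Function.update_self]

/-- Every polynomial is a difference of two terms. -/
theorem D_poly {γ : Type} (m : ℕ) (f : γ → ℕ) (hf : ∀ g, f g < m) (q : Poly γ) :
    ∃ P N : DTm, P.Below m ∧ N.Below m ∧
      ∀ x : ℕ → ℕ, q (fun g => x (f g)) = (P.ev x : ℤ) - (N.ev x : ℤ) := by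
  refine Poly.induction (C := fun q => ∃ P N : DTm, P.Below m ∧ N.Below m ∧
      ∀ x : ℕ → ℕ, q (fun g => x (f g)) = (P.ev x : ℤ) - (N.ev x : ℤ))
    (fun i => ?_) (fun n => ?_) (fun a b ha hb => ?_) (fun a b ha hb => ?_) q
  · exact ⟨.var (f i), .const 0, hf i, trivial, fun x => by simp [DTm.ev]⟩
  · refine ⟨.const n.toNat, .const (-n).toNat, trivial, trivial, fun x => ?_⟩
    simp only [DTm.ev, Poly.const_apply]
    omega
  · obtain ⟨P1, N1, hP1, hN1, h1⟩ := ha
    obtain ⟨P2, N2, hP2, hN2, h2⟩ := hb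
    refine ⟨.add P1 N2, .add N1 P2, ⟨hP1, hN2⟩, ⟨hN1, hP2⟩, fun x => ?_⟩
    simp only [DTm.ev, Poly.sub_apply, h1, h2]
    push_cast
    ring
  · obtain ⟨P1, N1, hP1, hN1, h1⟩ := ha
    obtain ⟨P2, N2, hP2, hN2, h2⟩ := hb
    refine ⟨.add (.mul P1 P2) (.mul N1 N2), .add (.mul P1 N2) (.mul N1 P2),
      ⟨⟨hP1, hP2⟩, hN1, hN2⟩, ⟨⟨hP1, hN2⟩, hN1, hP2⟩, fun x => ?_⟩
    simp only [DTm.ev, Poly.mul_apply, h1, h2]
    push_cast
    ring

/-- Normal form of the theorem of Davis, Putnam, Robinson and Matiyasevich: a recursively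
enumerable set is defined by a finite list of elementary equations in natural numbers. -/
theorem D_normal_form {p : ℕ → Prop} (h : REPred p) :
    ∃ L : List DEq, ∀ a : ℕ, p a ↔ ∃ x : ℕ → ℕ, x 0 = a ∧ ∀ e ∈ L, e.Holds x := by
  classical
  have h1 : Dioph {v : Unit → ℕ | p (v ())} :=
    DPRM.dioph_of_rePred h (Dioph.proj_dioph ())
  obtain ⟨β, hβ, q, hq⟩ := DPRM.finite_dummies h1
  cases nonempty_fintype β
  let e : β ≃ Fin (Fintype.card β) := Fintype.equivFin β
  let f : Unit ⊕ β → ℕ := Sum.elim (fun _ => 0) (fun b => (e b : ℕ) + 1)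
  have hf : ∀ g, f g < Fintype.card β + 1 := by
    rintro (_ | b)
    · exact Nat.succ_pos _
    · exact Nat.succ_lt_succ (e b).2
  obtain ⟨P, N, hP, hN, hPN⟩ := D_poly _ f hf q
  obtain ⟨L1, j1, n1, hn1, hj1, hs1, hc1⟩ := D_compile _ P hP _ le_rfl
  obtain ⟨L2, j2, n2, hn2, hj2, hs2, hc2⟩ := D_compile _ N hN n1 hn1
  have key : ∀ a : ℕ, p a ↔ ∃ x : ℕ → ℕ, x 0 = a ∧ P.ev x = N.ev x := by
    intro a
    refine (hq fun _ => a).trans ⟨?_, ?_⟩
    · rintro ⟨t, ht⟩
      let x : ℕ → ℕ := fun i => if i = 0 then a else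
        if hi : i - 1 < Fintype.card β then t (e.symm ⟨i - 1, hi⟩) else 0
      refine ⟨x, rfl, ?_⟩
      have hx : (fun g => x (f g)) = Sum.elim (fun _ => a) t := by
        funext g
        rcases g with _ | b
        · rfl
        · have h0 : f (Sum.inr b) ≠ 0 := Nat.succ_ne_zero _
          have h2 : f (Sum.inr b) - 1 = (e b : ℕ) := rfl
          simp only [x, h0, if_false, h2, Sum.elim_inr]
          rw [dif_pos (e b).2]
          simp
      have h3 := hPN x
      rw [hx] at h3
      have h4 : q (Sum.elim (fun _ => a) t) = 0 := ht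
      rw [h4] at h3
      omega
    · rintro ⟨x, hx0, hx⟩
      refine ⟨fun b => x (f (Sum.inr b)), ?_⟩
      have h3 := hPN x
      have h4 : (fun g => x (f g)) = Sum.elim (fun _ => a) (fun b => x (f (Sum.inr b))) := by
        funext g
        rcases g with _ | b
        · exact hx0
        · rfl
      rw [h4, hx, sub_self] at h3
      exact h3
  refine ⟨L1 ++ L2 ++ [DEq.const n2 0, DEq.add j1 n2 j2], fun a => (key a).trans ⟨?_, ?_⟩⟩
  · rintro ⟨x, hx0, hx⟩
    obtain ⟨y1, hy1, hz1⟩ := hc1 x
    obtain ⟨y2, hy2, hz2⟩ := hc2 y1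
    have hy12 : ∀ i < Fintype.card β + 1, y2 i = x i := fun i hi => by
      rw [hy2 i (by omega), hy1 i hi]
    have hL1 : ∀ e ∈ L1, e.Holds y2 := hz1 y2 hy2
    have hL2 : ∀ e ∈ L2, e.Holds y2 := hz2 y2 fun _ _ => rfl
    have e1 : y2 j1 = P.ev x := by
      rw [hs1 y2 hL1, DTm.Below.ev_congr hy12 hP]
    have e2 : y2 j2 = N.ev x := by
      rw [hs2 y2 hL2, DTm.Below.ev_congr hy12 hN]
    have hz : ∀ i < n2, Function.update y2 n2 0 i = y2 i := fun i hi =>
      Function.update_of_ne (by omega) _ _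
    refine ⟨Function.update y2 n2 0, ?_, fun e he => ?_⟩
    · rw [hz 0 (by omega), hy12 0 (by omega), hx0]
    · rcases List.mem_append.1 he with he | he
      · rcases List.mem_append.1 he with he | he
        · exact hz1 _ (fun i hi => by rw [hz i (by omega), hy2 i hi]) e he
        · exact hz2 _ hz e he
      · simp only [List.mem_cons, List.not_mem_nil, or_false] at he
        rcases he with rfl | rfl
        · exact Function.update_self _ _ _
        · change Function.update y2 n2 0 j1 + Function.update y2 n2 0 n2 =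
            Function.update y2 n2 0 j2
          rw [hz j1 (by omega), hz j2 (by omega), Function.update_self, e1, e2, hx, add_zero]
  · rintro ⟨x, hx0, hx⟩
    refine ⟨x, hx0, ?_⟩
    have a1 := hs1 x fun e he => hx e (by simp [he])
    have a2 := hs2 x fun e he => hx e (by simp [he])
    have a3 : x n2 = 0 := hx (DEq.const n2 0) (by simp)
    have a4 : x j1 + x n2 = x j2 := hx (DEq.add j1 n2 j2) (by simp)
    rw [← a1, ← a2, ← a4, a3, add_zero]

/-- row D (module MRDP, helper89 and helper63) -/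
theorem exists_undecidable_system : ∃ L : List DEq,
    ¬ ComputablePred (fun n : ℕ => ∃ x : ℕ → ℕ, x 0 = n ∧ ∀ e ∈ L, e.Holds x) := by
  obtain ⟨p, hp, hp'⟩ := DPRM.exists_rePred_not_computable
  obtain ⟨L, hL⟩ := D_normal_form hp
  exact ⟨L, fun h => hp' (h.of_eq fun a => (hL a).symm)⟩

end WE57b
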