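import Mathlib

/-!
Word equations with length constraints: definitions for MP_57b0a1_lc.
Seeds, the Arnoux-Rauzy relation, word states, formulas with length constraints,
the class LD of relations that are definable, and lists of Diophantine equations.
-/

namespace WE57b

/-- The Arnoux-Rauzy relation in coordinates with seeds `(a, b, c)`. -/
inductive AR3 (a b c : ℕ) : ℕ → ℕ → ℕ → Prop
  | base : AR3 a b c a b c
  | op1 {x y z : ℕ} : AR3 a b c x y z → AR3 a b c x (y + x) (z + x)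
  | op2 {x y z : ℕ} : AR3 a b c x y z → AR3 a b c (x + y) y (z + y)
  | op3 {x y z : ℕ} : AR3 a b c x y z → AR3 a b c (x + z) (y + z) z

/-- The Arnoux-Rauzy relation in the complementary coordinates. -/
inductive ARy (s : Fin 3 → ℕ) : (Fin 3 → ℕ) → Prop
  | zero : ARy s 0
  | step {y : Fin 3 → ℕ} (j : Fin 3) :
      ARy s y → ARy s (Function.update y j (y 0 + y 1 + y 2 + s j))

/-- The word state. -/
structure St {Γ : Type} (u : Fin 3 → List Γ) (w : List Γ) (y : Fin 3 → ℕ) : Prop where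
  len : w.length = y 0 + y 1 + y 2
  bord : ∀ i, y i = 0 ∨
    ∃ p : List Γ, p.length + (u i).length = y i ∧ (p ++ u i) <+: w ∧ p <:+ w
  start : w = [] ∨ ∃ m, u m <+: w

/-- The word `a^(s-1) b`. -/
def uw {Γ : Type} (a b : Γ) (s : ℕ) : List Γ := List.replicate (s - 1) a ++ [b]

/-- Formulas about words and numbers: word variables are indexed by `ℕ`, number variables by
`ν`. -/
inductive Fml (ν : Type) : Type
  | cat (a b c : ℕ) : Fml ν
  | const (a : ℕ) (x : Fin 6) : Fml ν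
  | lin (l : List (ℤ × (ℕ ⊕ ν))) (d : ℤ) : Fml ν
  | and (F G : Fml ν) : Fml ν
  | or (F G : Fml ν) : Fml ν

/-- Meaning of a formula over the alphabet `Γ`, six letters of which are named by `φ`. -/
def Fml.Holds {ν : Type} {Γ : Type} (φ : Fin 6 → Γ) (s : ℕ → List Γ) (v : ν → ℕ) : Fml ν → Prop
  | .cat a b c => s a = s b ++ s c
  | .const a x => s a = [φ x]
  | .lin l d => (l.map (fun t => t.1 *
      (Sum.elim (fun a => ((s a).length : ℤ)) (fun i => (v i : ℤ)) t.2))).sum = d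
  | .and F G => F.Holds φ s v ∧ G.Holds φ s v
  | .or F G => F.Holds φ s v ∨ G.Holds φ s v

/-- A relation between natural numbers is definable by word equations with length constraints:
there is a formula which is complete over six letters with nonempty words, and sound (for
nonempty words) over every alphabet with six marked letters. -/
def LD {ν : Type} (R : (ν → ℕ) → Prop) : Prop :=
  ∃ F : Fml ν,
    (∀ v, R v → ∃ s : ℕ → List (Fin 6), (∀ i, s i ≠ []) ∧ F.Holds id s v) ∧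
    (∀ (Γ : Type) (φ : Fin 6 → Γ), Function.Injective φ →
      ∀ (s : ℕ → List Γ) (v : ν → ℕ), (∀ i, s i ≠ []) → F.Holds φ s v → R v)

/-- Affine functions with natural coefficients. -/
def Aff {ν : Type} (f : (ν → ℕ) → ℕ) : Prop :=
  ∃ (l : List (ℕ × ν)) (d : ℕ), ∀ v, f v = (l.map (fun t => t.1 * v t.2)).sum + d

/-- Elementary Diophantine equations. -/
inductive DEq : Type
  | add (i j k : ℕ) : DEq
  | mul (i j k : ℕ) : DEq
  | const (i c : ℕ) : DEq

/-- Meaning of an elementary equation. -/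
def DEq.Holds (x : ℕ → ℕ) : DEq → Prop
  | .add i j k => x i + x j = x k
  | .mul i j k => x i * x j = x k
  | .const i c => x i = c

/-- The triple relation `R(V;s)` (periods `V`, seeds `s`), with `T1 = 2+3B`, `T2 = 2+3B^2`. -/
def RR (a b c x y z : ℕ) : Prop :=
  AR3 a b c x y z ∧
  AR3 (5 * a + 3 * b) (3 * a + 2 * b + 3 * c) (3 * a + 2 * c)
    (5 * x + 3 * y) (3 * x + 2 * y + 3 * z) (3 * x + 2 * z) ∧
  AR3 (8 * a + 3 * b + 3 * c) (6 * a + 5 * b) (3 * a + 3 * b + 2 * c)
    (8 * x + 3 * y + 3 * z) (6 * x + 5 * y) (3 * x + 3 * y + 2 * z)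

/-- The matrix `B` on triples of natural numbers. -/
def Bt (v : ℕ × ℕ × ℕ) : ℕ × ℕ × ℕ := (v.1 + v.2.1, v.1 + v.2.2, v.1)

/-- The superlinear relation. -/
def BU (X U : ℕ) : Prop :=
  6 ≤ X ∧ ∃ a b c x y z : ℕ, 2 ≤ a ∧ 2 ≤ b ∧ 2 ≤ c ∧ RR a b c x y z ∧
    RR (a + 2) (b + 2) (c + 2) (x + a) (y + b) (z + c) ∧
    X ≤ a + b + c ∧ a + b + c ≤ 9 * X ∧ U = 18 * (x + y + z)

/-- Bounded multiplication by `X`. -/
def MULP (X0 k X z : ℕ) : Prop :=
  X0 ≤ X ∧ k ≤ X ∧ (∃ U, BU X U ∧ z ≤ U) ∧ X ∣ z ∧ (X + 1) ∣ z + k ∧ (X + 2) ∣ z + 2 * k ∧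
    (X + 3) ∣ z + 3 * k ∧ (X + 4) ∣ z + 4 * k

end WE57b
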