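import Pool.Agent.Lib.WE57b.SC
import Pool.Agent.Lib.MP_57b0a1_wl.W

namespace WE57b

/-- The formula of the divisibility relation. Words: 0 = alpha, 1 = [a], 2 = [b], 3 = u,
4 = alpha a = a alpha, 5 = v, 6 = v u = u v. -/
def S5_fml : Fml (Fin 2) :=
  .and (.and (.and (.const 1 0) (.const 2 1)) (.and (.cat 3 0 2) (.and (.cat 4 0 1) (.cat 4 1 0))))
    (.and (.and (.cat 6 5 3) (.cat 6 3 5))
      (.and (.lin [(1, Sum.inl 0), (-1, Sum.inr 0)] (-1))
        (.lin [(1, Sum.inl 5), (-1, Sum.inr 1)] 0)))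

/-- The words of the divisibility relation. -/
def S5_asg (n : ℕ) (v : List (Fin 6)) : ℕ → List (Fin 6)
  | 0 => List.replicate (n - 1) 0
  | 1 => [0]
  | 2 => [1]
  | 3 => uw 0 1 n
  | 4 => List.replicate (n - 1) 0 ++ [0]
  | 5 => v
  | 6 => v ++ uw 0 1 n
  | _ => [0]

theorem S5_commute_letter {Γ : Type} {a : Γ} {w : List Γ} (h : w ++ [a] = [a] ++ w) :
    w = List.replicate w.length a := by
  induction w with
  | nil => rfl
  | cons x w ih =>
    rw [List.cons_append, List.singleton_append, List.cons.injEq] at h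
    obtain ⟨rfl, h2⟩ := h
    rw [List.length_cons, List.replicate_succ, ← ih (by rw [h2]; rfl)]

theorem S5_aux : LD (fun v : Fin 2 → ℕ => 2 ≤ v 0 ∧ v 0 ∣ v 1 ∧ v 1 ≠ 0) := by
  refine ⟨S5_fml, ?_, ?_⟩
  · rintro v ⟨h2, hd, h0⟩
    obtain ⟨w, hw, hc⟩ := (Pool.WL.dvd_iff (a := (0 : Fin 6)) (b := 1) (by decide)
      (by omega : 1 ≤ v 0)).1 hd
    have hw0 : w ≠ [] := by
      rintro rfl; exact h0 (by simpa using hw.symm)
    have hr : List.replicate (v 0 - 1) (0 : Fin 6) ≠ [] := by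
      intro h
      have := congrArg List.length h
      simp at this; omega
    refine ⟨S5_asg (v 0) w, ?_, ?_⟩
    · intro i
      unfold S5_asg
      split <;> simp_all [uw]
    · refine ⟨⟨⟨rfl, rfl⟩, rfl, rfl, ?_⟩, ⟨rfl, hc⟩, ?_, ?_⟩
      · simp only [Fml.Holds, S5_asg]
        rw [← List.replicate_succ', List.singleton_append, List.replicate_succ]
      · simp [Fml.Holds, S5_asg]; omega
      · simp [Fml.Holds, S5_asg, hw]
  · intro Γ φ hφ s v hs h
    simp only [S5_fml, Fml.Holds] at h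
    obtain ⟨⟨⟨h1, h2⟩, h3, h4, h5⟩, ⟨h6, h7⟩, h8, h9⟩ := h
    have hα := S5_commute_letter (a := φ 0) (w := s 0) (by rw [← h1, ← h4, h5])
    have h10 : 1 ≤ (s 0).length := List.length_pos_iff.mpr (hs 0)
    have h11 : 1 ≤ (s 5).length := List.length_pos_iff.mpr (hs 5)
    simp at h8 h9
    have hn : (s 0).length = v 0 - 1 := by omega
    have hu : s 3 = uw (φ 0) (φ 1) (v 0) := by
      unfold uw; rw [h3, h2, hα, hn]
    have hd : v 0 ∣ (s 5).length :=
      (Pool.WL.dvd_iff (a := φ 0) (b := φ 1) (fun e => absurd (hφ e) (by decide))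
        (by omega : 1 ≤ v 0)).2 ⟨s 5, rfl, by
          show s 5 ++ uw (φ 0) (φ 1) (v 0) = uw (φ 0) (φ 1) (v 0) ++ s 5
          rw [← hu, ← h6, h7]⟩
    have h12 : (s 5).length = v 1 := by omega
    rw [h12] at hd
    exact ⟨by omega, hd, by omega⟩

/-- row S5 -/
theorem LD_dvd : LD (fun v : Fin 2 → ℕ => 2 ≤ v 0 ∧ v 0 ∣ v 1) := by
  have h1 := ((LD.le (Aff.const (ν := Fin 2) 2) (Aff.var 0)).and
    (LD.eq (Aff.var (ν := Fin 2) 1) (Aff.const 0))).or S5_aux
  convert h1 using 2 with v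
  constructor
  · rintro ⟨h2, h3⟩
    by_cases h0 : v 1 = 0
    · exact Or.inl ⟨h2, h0⟩
    · exact Or.inr ⟨h2, h3, h0⟩
  · rintro (⟨h2, h3⟩ | ⟨h2, h3, h4⟩)
    · exact ⟨h2, by rw [h3]; exact dvd_zero _⟩
    · exact ⟨h2, h3⟩

end WE57b
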