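import Pool.Agent.Lib.WE57b.SD
import Pool.Agent.Lib.WE57b.SE
import Pool.Agent.Lib.MP_57b0a1_wl.D

/-!
Multiplication is definable by word equations with length constraints, by the exact definition of
the pairs `(A^k 1, A^(2k) 1)` in `Pool.Agent.Lib.MP_57b0a1_wl.G` and the multiplication formula in
`Pool.Agent.Lib.MP_57b0a1_wl.D`.
-/

namespace WE57b

open Pool.WL

private theorem PC_AR3_of_AT {a b c x y z : ℕ} (h : AT a b c x y z) : AR3 a b c x y z := by
  induction h with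
  | base => exact .base
  | step1 _ ih => exact ih.op1
  | step2 _ ih => exact ih.op2
  | step3 _ ih => exact ih.op3

private theorem PC_AT_of_AR3 {a b c x y z : ℕ} (h : AR3 a b c x y z) : AT a b c x y z := by
  induction h with
  | base => exact .base
  | op1 _ ih => exact ih.step1
  | op2 _ ih => exact ih.step2
  | op3 _ ih => exact ih.step3

private theorem PC_double {a b c x y z : ℕ} (h : AR3 a b c x y z) :
    AR3 (2 * a) (2 * b) (2 * c) (2 * x) (2 * y) (2 * z) := by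
  induction h with
  | base => exact .base
  | op1 _ ih =>
    rw [mul_add, mul_add]
    exact ih.op1
  | op2 _ ih =>
    rw [mul_add, mul_add]
    exact ih.op2
  | op3 _ ih =>
    rw [mul_add, mul_add]
    exact ih.op3

private theorem PC_half {a b c X Y Z : ℕ} (h : AR3 (2 * a) (2 * b) (2 * c) X Y Z) :
    ∃ x y z, X = 2 * x ∧ Y = 2 * y ∧ Z = 2 * z ∧ AR3 a b c x y z := by
  induction h with
  | base => exact ⟨a, b, c, rfl, rfl, rfl, .base⟩
  | op1 _ ih =>
    obtain ⟨x, y, z, rfl, rfl, rfl, h⟩ := ih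
    exact ⟨_, _, _, rfl, (mul_add _ _ _).symm, (mul_add _ _ _).symm, h.op1⟩
  | op2 _ ih =>
    obtain ⟨x, y, z, rfl, rfl, rfl, h⟩ := ih
    exact ⟨_, _, _, (mul_add _ _ _).symm, rfl, (mul_add _ _ _).symm, h.op2⟩
  | op3 _ ih =>
    obtain ⟨x, y, z, rfl, rfl, rfl, h⟩ := ih
    exact ⟨_, _, _, (mul_add _ _ _).symm, (mul_add _ _ _).symm, rfl, h.op3⟩

private theorem PC_double_iff (a b c x y z : ℕ) :
    AR3 (2 * a) (2 * b) (2 * c) (2 * x) (2 * y) (2 * z) ↔ AR3 a b c x y z := by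
  constructor
  · intro h
    obtain ⟨x', y', z', h1, h2, h3, h4⟩ := PC_half h
    have e1 : x = x' := by omega
    have e2 : y = y' := by omega
    have e3 : z = z' := by omega
    rw [e1, e2, e3]
    exact h4
  · exact PC_double

/-- The relation `AR` with affine coordinates. -/
private theorem PC_LD_AR {ν : Type} {s V : (ν → ℕ) → V3} (hs : ∀ i, Aff (fun v => s v i))
    (hV : ∀ i, Aff (fun v => V v i)) : LD (fun v => (∀ i, 0 < s v i) ∧ AR (s v) (V v)) := by
  have h := LD.comp LD_AR (g := ![fun v => 2 * s v 0, fun v => 2 * s v 1, fun v => 2 * s v 2,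
    fun v => 2 * V v 0, fun v => 2 * V v 1, fun v => 2 * V v 2]) (by
      intro k
      fin_cases k
      · exact (hs 0).smul 2
      · exact (hs 1).smul 2
      · exact (hs 2).smul 2
      · exact (hV 0).smul 2
      · exact (hV 1).smul 2
      · exact (hV 2).smul 2)
  refine (congrArg LD (funext fun v => propext ?_)).mp h
  show 2 ≤ 2 * s v 0 ∧ 2 ≤ 2 * s v 1 ∧ 2 ≤ 2 * s v 2 ∧
    AR3 (2 * s v 0) (2 * s v 1) (2 * s v 2) (2 * V v 0) (2 * V v 1) (2 * V v 2) ↔ _
  rw [PC_double_iff, ar_iff]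
  constructor
  · rintro ⟨h0, h1, h2, h3⟩
    refine ⟨fun i => ?_, PC_AT_of_AR3 h3⟩
    fin_cases i
    · show 0 < s v 0
      omega
    · show 0 < s v 1
      omega
    · show 0 < s v 2
      omega
  · rintro ⟨h0, h3⟩
    have h1 := h0 0
    have h2 := h0 1
    have h4 := h0 2
    exact ⟨by omega, by omega, by omega, PC_AR3_of_AT h3⟩

private theorem PC_LD_true {ν : Type} : LD (fun _ : ν → ℕ => True) := by
  refine (congrArg LD (funext fun v => propext ?_)).mp (LD.eq (Aff.const 0) (Aff.const 0))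
  simp

private theorem PC_LD_iff {ν : Type} {R Q : (ν → ℕ) → Prop} (hR : LD R) (h : ∀ v, R v ↔ Q v) :
    LD Q := (congrArg LD (funext fun v => propext (h v))).mp hR

private theorem PC_LD_all {ν : Type} {n : ℕ} {R : Fin n → (ν → ℕ) → Prop} (h : ∀ i, LD (R i)) :
    LD (fun v => ∀ i, R i v) := by
  induction n with
  | zero => exact PC_LD_iff PC_LD_true (fun v => by simp)
  | succ n ih =>
    exact PC_LD_iff ((h 0).and (ih (R := fun i => R i.succ) (fun i => h i.succ)))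
      (fun v => by rw [Fin.forall_fin_succ])

private theorem PC_Aff_TT {ν : Type} (i : Fin 4) {V : (ν → ℕ) → V3}
    (hV : ∀ i, Aff (fun v => V v i)) : ∀ j, Aff (fun v => TT i (V v) j) := by
  have h0 := hV 0
  have h1 := hV 1
  have h2 := hV 2
  intro j
  fin_cases i <;> fin_cases j
  · exact h0
  · exact h1
  · exact h2
  · exact h0.add h2
  · exact (h0.add h1).add h2
  · exact h1.add (h2.smul 2)
  · exact (h0.add h1).add h2
  · exact (h1.smul 2).add (h2.smul 2)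
  · exact (h0.add h1).add (h2.smul 3)
  · exact h1.add h2
  · exact h1.add (h2.smul 2)
  · exact (h0.add h1).add (h2.smul 2)

private theorem PC_LD_Pair {ν : Type} {P Q : (ν → ℕ) → V3} (hP : ∀ i, Aff (fun v => P v i))
    (hQ : ∀ i, Aff (fun v => Q v i)) : LD (fun v => Pair (P v) (Q v)) := by
  have h1 : ∀ i, Aff (fun _ : ν → ℕ => (1 : V3) i) := fun i => Aff.const 1
  have hP1 : ∀ i, Aff (fun v => (P v + 1) i) := fun i => (hP i).add (Aff.const 1)
  have hPQ : ∀ i, Aff (fun v => (P v + Q v) i) := fun i => (hP i).add (hQ i)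
  have e1 := PC_LD_all (R := fun i v => (∀ j, 0 < TT i 1 j) ∧ AR (TT i 1) (TT i (P v)))
    (fun i => PC_LD_AR (s := fun _ => TT i 1) (V := fun v => TT i (P v)) (PC_Aff_TT i h1)
      (PC_Aff_TT i hP))
  have e2 := PC_LD_all (R := fun i v => (∀ j, 0 < TT i (P v) j) ∧ AR (TT i (P v)) (TT i (Q v)))
    (fun i => PC_LD_AR (s := fun v => TT i (P v)) (V := fun v => TT i (Q v)) (PC_Aff_TT i hP)
      (PC_Aff_TT i hQ))
  have e3 := PC_LD_all
    (R := fun i v => (∀ j, 0 < TT i (P v + 1) j) ∧ AR (TT i (P v + 1)) (TT i (P v + Q v)))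
    (fun i => PC_LD_AR (s := fun v => TT i (P v + 1)) (V := fun v => TT i (P v + Q v))
      (PC_Aff_TT i hP1) (PC_Aff_TT i hPQ))
  refine PC_LD_iff (e1.and (e2.and e3)) (fun v => ?_)
  constructor
  · rintro ⟨a1, a2, a3⟩
    exact ⟨fun i => (a1 i).2, fun i => (a2 i).2, fun i => (a3 i).2⟩
  · intro h
    have hp := h.pos.1
    exact ⟨fun i => ⟨TT_one_pos i, h.1 i⟩, fun i => ⟨TT_pos i hp, h.2.1 i⟩,
      fun i => ⟨TT_pos i (fun j => Nat.lt_of_lt_of_le (hp j) (Nat.le_add_right _ _)), h.2.2 i⟩⟩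

private theorem PC_LD_lt {ν : Type} {f g : (ν → ℕ) → ℕ} (hf : Aff f) (hg : Aff g) :
    LD (fun v => f v < g v) := LD.le (hf.add (Aff.const 1)) hg

private theorem PC_LD_dvd {ν : Type} {f g : (ν → ℕ) → ℕ} (hf : Aff f) (hg : Aff g) :
    LD (fun v => 2 ≤ f v ∧ f v ∣ g v) :=
  LD.comp LD_dvd (g := ![f, g]) (by
    intro k
    fin_cases k
    · exact hf
    · exact hg)

private theorem PC_lift {ν κ : Type} {f : (ν → ℕ) → ℕ} (hf : Aff f) :
    Aff (fun w : ν ⊕ κ → ℕ => f (fun i => w (Sum.inl i))) := by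
  obtain ⟨l, d, h⟩ := hf
  refine ⟨l.map (fun t => (t.1, Sum.inl t.2)), d, fun w => ?_⟩
  show f (fun i => w (Sum.inl i)) = _
  rw [h, List.map_map]
  rfl

private theorem PC_LD_MulP {ν : Type} {k X z : (ν → ℕ) → ℕ} (hk : Aff k) (hX : Aff X)
    (hz : Aff z) : LD (fun v => MulP (k v) (X v) (z v)) := by
  have hP : ∀ i, Aff (fun w : ν ⊕ Fin 6 → ℕ =>
      (![w (Sum.inr 0), w (Sum.inr 1), w (Sum.inr 2)] : V3) i) := by
    intro i
    fin_cases i
    · exact Aff.var (Sum.inr 0)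
    · exact Aff.var (Sum.inr 1)
    · exact Aff.var (Sum.inr 2)
  have hQ : ∀ i, Aff (fun w : ν ⊕ Fin 6 → ℕ =>
      (![w (Sum.inr 3), w (Sum.inr 4), w (Sum.inr 5)] : V3) i) := by
    intro i
    fin_cases i
    · exact Aff.var (Sum.inr 3)
    · exact Aff.var (Sum.inr 4)
    · exact Aff.var (Sum.inr 5)
  have h1 := LD.ex ((PC_LD_Pair hP hQ).and ((LD.le (hP 0) (PC_lift hX)).and
    ((PC_LD_lt (PC_lift hX) ((hP 0).smul 8)).and (LD.le (PC_lift hz) ((hQ 0).smul 64)))))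
  have h2 := (LD.le (Aff.const 256) hX).and ((LD.le hk hX).and (h1.and ((PC_LD_dvd hX hz).and
    ((PC_LD_dvd (hX.add (Aff.const 1)) (hz.add hk)).and
      (PC_LD_dvd (hX.add (Aff.const 2)) (hz.add (hk.smul 2)))))))
  refine PC_LD_iff h2 (fun v => ?_)
  constructor
  · rintro ⟨a1, a2, ⟨x, a3, a4, a5, a6⟩, a7, a8, a9⟩
    exact ⟨a1, a2, ⟨_, _, a3, a4, a5, a6⟩, a7.2, a8.2, a9.2⟩
  · rintro ⟨a1, a2, ⟨P, Q, a3, a4, a5, a6⟩, a7, a8, a9⟩
    have e1 : P = ![P 0, P 1, P 2] := by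
      funext i
      fin_cases i <;> rfl
    have e2 : Q = ![Q 0, Q 1, Q 2] := by
      funext i
      fin_cases i <;> rfl
    refine ⟨a1, a2, ⟨![P 0, P 1, P 2, Q 0, Q 1, Q 2], ?_, a4, a5, a6⟩, ⟨by omega, a7⟩,
      ⟨by omega, a8⟩, ⟨by omega, a9⟩⟩
    rw [e1, e2] at a3
    exact a3

/-- row P3 -/
theorem LD_mul : LD (fun v : Fin 3 → ℕ => v 0 * v 1 = v 2) := by
  have h0 : ∀ i, Aff (fun w : Fin 3 ⊕ Fin 2 → ℕ => w i) := fun i => Aff.var i
  have hs : Aff (fun w : Fin 3 ⊕ Fin 2 → ℕ => w (Sum.inl 0) + w (Sum.inl 1) + 256) :=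
    ((h0 (Sum.inl 0)).add (h0 (Sum.inl 1))).add (Aff.const 256)
  have h1 := LD.ex ((PC_LD_MulP (h0 (Sum.inl 1)) ((h0 (Sum.inl 0)).add hs) (h0 (Sum.inr 0))).and
    ((PC_LD_MulP (h0 (Sum.inl 1)) hs (h0 (Sum.inr 1))).and
      (LD.eq (h0 (Sum.inr 0)) ((h0 (Sum.inr 1)).add (h0 (Sum.inl 2))))))
  refine PC_LD_iff h1 (fun v => ?_)
  rw [mul_iff]
  constructor
  · rintro ⟨x, h⟩
    exact ⟨x 0, x 1, h⟩
  · rintro ⟨z1, z2, h⟩
    exact ⟨![z1, z2], h⟩

private theorem PC_LD_system {ν : Type} (h : ℕ → ν) (L : List DEq) :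
    LD (fun v : ν → ℕ => ∀ e ∈ L, e.Holds (fun n => v (h n))) := by
  induction L with
  | nil => exact PC_LD_iff PC_LD_true (fun v => by simp)
  | cons e L ih =>
    have he : LD (fun v : ν → ℕ => e.Holds (fun n => v (h n))) := by
      cases e with
      | add i j k => exact LD.eq ((Aff.var (h i)).add (Aff.var (h j))) (Aff.var (h k))
      | mul i j k =>
        exact LD.comp LD_mul (g := ![fun v => v (h i), fun v => v (h j), fun v => v (h k)]) (by
          intro t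
          fin_cases t
          · exact Aff.var (h i)
          · exact Aff.var (h j)
          · exact Aff.var (h k))
      | const i c => exact LD.eq (Aff.var (h i)) (Aff.const c)
    exact PC_LD_iff (he.and ih) (fun v => by rw [List.forall_mem_cons])

/-- row P4 -/
theorem LD_system (L : List DEq) : LD (fun v : ℕ → ℕ => ∀ e ∈ L, e.Holds v) :=
  PC_LD_system (fun n => n) L

/-- row P4 -/
theorem LD_ex_system (L : List DEq) :
    LD (fun v : Unit → ℕ => ∃ x : ℕ → ℕ, x 0 = v () ∧ ∀ e ∈ L, e.Holds x) :=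
  LD.ex ((LD.eq (Aff.var (ν := Unit ⊕ ℕ) (Sum.inr 0)) (Aff.var (Sum.inl ()))).and
    (PC_LD_system Sum.inr L))

end WE57b
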