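import Pool.Agent.Lib.WE57b.RZ

namespace WE57b

private lemma encode_int_sub (A B : ℕ) :
    Encodable.encode ((A : ℤ) - (B : ℤ)) = if B ≤ A then 2 * (A - B) else 2 * (B - A - 1) + 1 := by
  show Equiv.intEquivNat ((A : ℤ) - (B : ℤ)) = _
  split_ifs with h
  · have e : (A : ℤ) - (B : ℤ) = Int.ofNat (A - B) := by
      simp only [Int.ofNat_eq_natCast]
      omega
    rw [e]
    rfl
  · have e : (A : ℤ) - (B : ℤ) = Int.negSucc (B - A - 1) := by
      rw [Int.negSucc_eq]
      omega
    rw [e]
    rfl

private lemma primrec_aff (d c : ℤ) : Primrec (fun n : ℕ => d - c * (n : ℤ)) := by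
  have e : ∀ n : ℕ, d - c * (n : ℤ) =
      ((d.toNat + (-c).toNat * n : ℕ) : ℤ) - (((-d).toNat + c.toNat * n : ℕ) : ℤ) := by
    intro n
    have h1 : d = (d.toNat : ℤ) - ((-d).toNat : ℤ) := by omega
    have h2 : c = (c.toNat : ℤ) - ((-c).toNat : ℤ) := by omega
    push_cast
    conv_lhs => rw [h1, h2]
    ring
  have hA : Primrec (fun n : ℕ => d.toNat + (-c).toNat * n) :=
    Primrec.nat_add.comp (Primrec.const _) (Primrec.nat_mul.comp (Primrec.const _) Primrec.id)
  have hB : Primrec (fun n : ℕ => (-d).toNat + c.toNat * n) :=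
    Primrec.nat_add.comp (Primrec.const _) (Primrec.nat_mul.comp (Primrec.const _) Primrec.id)
  rw [← Primrec.encode_iff]
  have h3 : (fun n : ℕ => Encodable.encode (d - c * (n : ℤ))) = fun n : ℕ =>
      if (-d).toNat + c.toNat * n ≤ d.toNat + (-c).toNat * n then
        2 * ((d.toNat + (-c).toNat * n) - ((-d).toNat + c.toNat * n))
      else 2 * (((-d).toNat + c.toNat * n) - (d.toNat + (-c).toNat * n) - 1) + 1 := by
    funext n
    rw [e n, encode_int_sub]
  rw [h3]
  refine Primrec.ite (Primrec.nat_le.comp hB hA) ?_ ?_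
  · exact Primrec.nat_mul.comp (Primrec.const 2) (Primrec.nat_sub.comp hA hB)
  · exact Primrec.succ.comp (Primrec.nat_mul.comp (Primrec.const 2)
      (Primrec.nat_sub.comp (Primrec.nat_sub.comp hB hA) (Primrec.const 1)))

/-- the length of `x_{2a}` is three times the length of `x_{2a+1}` -/
private def thr (a : ℕ) : LCon := ([(1, 2 * a), (-3, 2 * a + 1)], 0)

private def linTerms : List (ℤ × (ℕ ⊕ Unit)) → List (ℤ × ℕ)
  | [] => []
  | (t, Sum.inl a) :: l => (t, 2 * a + 1) :: linTerms l
  | (_, Sum.inr _) :: l => linTerms l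

private def linCoef : List (ℤ × (ℕ ⊕ Unit)) → ℤ
  | [] => 0
  | (_, Sum.inl _) :: l => linCoef l
  | (t, Sum.inr _) :: l => t + linCoef l

private def linThr : List (ℤ × (ℕ ⊕ Unit)) → List LCon
  | [] => []
  | (_, Sum.inl a) :: l => thr a :: linThr l
  | (_, Sum.inr _) :: l => linThr l

private lemma lin_eq (l : List (ℤ × (ℕ ⊕ Unit))) (n : ℕ) (len len' : ℕ → ℕ)
    (h : ∀ a, thr a ∈ linThr l → len a = len' (2 * a + 1)) :
    (l.map (fun t => t.1 * (Sum.elim (fun a => (len a : ℤ)) (fun _ => (n : ℤ)) t.2))).sum =
      ((linTerms l).map (fun t => t.1 * (len' t.2 : ℤ))).sum + linCoef l * n := by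
  induction l with
  | nil => simp [linTerms, linCoef]
  | cons t l ih =>
    obtain ⟨t, a | u⟩ := t
    · have h1 := ih (fun a ha => h a (by simp [linThr, ha]))
      have h2 := h a (by simp [linThr])
      simp only [List.map_cons, List.sum_cons, Sum.elim_inl, linTerms, linCoef, h1, h2]
      ring
    · have h1 := ih (fun a ha => h a (by simpa [linThr] using ha))
      simp only [List.map_cons, List.sum_cons, Sum.elim_inr, linTerms, linCoef, h1]
      ring

private def cns (n : ℕ) : Atm → List LCon
  | .cat a b c => [thr a, thr b, thr c]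
  | .const a _ => [thr a]
  | .lin l d => (linTerms l, d - linCoef l * n) :: linThr l

private def eqs {k : ℕ} (z o : Fin k) : Atm → List (List (ℕ ⊕ Fin k) × List (ℕ ⊕ Fin k))
  | .cat a b c => [([Sum.inl (2 * a)], [Sum.inl (2 * b), Sum.inl (2 * c)])]
  | .const a x => [([Sum.inl (2 * a)], [Sum.inr (code z o x).1, Sum.inr (code z o x).2.1,
      Sum.inr (code z o x).2.2])]
  | .lin _ _ => []

private def ins {k : ℕ} (z o : Fin k) (C : List Atm) (n : ℕ) : SInst (Fin k) :=
  (C.flatMap (eqs z o), C.flatMap (cns n))

private lemma primrec_cns (t : Atm) : Primrec (fun n : ℕ => cns n t) := by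
  cases t with
  | cat a b c => exact Primrec.const _
  | const a x => exact Primrec.const _
  | lin l d =>
    exact Primrec.list_cons.comp (Primrec.pair (Primrec.const _) (primrec_aff _ _))
      (Primrec.const _)

private lemma computable_ins {k : ℕ} (z o : Fin k) (C : List Atm) : Computable (ins z o C) := by
  refine Primrec.to_comp ?_
  refine Primrec.pair (Primrec.const _) ?_
  induction C with
  | nil => exact Primrec.const _
  | cons t C ih =>
    have : (fun n : ℕ => (t :: C).flatMap (cns n)) = fun n => cns n t ++ C.flatMap (cns n) := by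
      funext n; simp
    rw [this]
    exact Primrec.list_append.comp (primrec_cns t) ih

private lemma ins_proper {k : ℕ} (z o : Fin k) (C : List Atm) (n : ℕ) : (ins z o C n).Proper := by
  intro e he
  obtain ⟨t, -, ht⟩ := List.mem_flatMap.mp he
  cases t with
  | cat a b c => simp only [eqs, List.mem_singleton] at ht; subst ht; simp
  | const a x => simp only [eqs, List.mem_singleton] at ht; subst ht; simp
  | lin l d => simp [eqs] at ht

private lemma thr_holds {len : ℕ → ℕ} {a : ℕ} :
    LCon.Holds len (thr a) ↔ len (2 * a) = 3 * len (2 * a + 1) := by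
  simp only [LCon.Holds, thr, List.map_cons, List.map_nil, List.sum_cons, List.sum_nil]
  constructor
  · intro h; omega
  · intro h; omega

private lemma thr_inj {a b : ℕ} (h : thr a = thr b) : a = b := by
  simp only [thr, Prod.mk.injEq, List.cons.injEq, true_and, and_true] at h
  omega

/-- the blocks of a word; a default block if there is none -/
private def ch {k : ℕ} (z o : Fin k) (w : List (Fin k)) : List (Fin k × Fin k × Fin k) :=
  if chunk w = [] then [code z o 0] else chunk w

private lemma ch_ne {k : ℕ} (z o : Fin k) (w : List (Fin k)) : ch z o w ≠ [] := by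
  unfold ch
  split_ifs with h
  · simp
  · exact h

private lemma ch_eq {k : ℕ} (z o : Fin k) {w : List (Fin k)} {m : ℕ} (h : w.length = 3 * m)
    (hm : 0 < m) : ch z o w = chunk w := by
  unfold ch
  split_ifs with h1
  · exfalso
    have h2 := chunk_length w ⟨m, h⟩
    rw [h1] at h2
    simp only [List.length_nil] at h2
    omega
  · rfl

private lemma sound {k : ℕ} {z o : Fin k} {C : List Atm} {n : ℕ}
    {s : ℕ → List (Fin k)} (h0 : ∀ j, s j ≠ [])
    (h1 : ∀ e ∈ (ins z o C n).1, ssubst s e.1 = ssubst s e.2)
    (h2 : ∀ c ∈ (ins z o C n).2, LCon.Holds (fun j => (s j).length) c) :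
    ∀ t ∈ C, Atm.Holds (code z o) (fun a => ch z o (s (2 * a))) n t := by
  intro t ht
  have g1 : ∀ e ∈ eqs z o t, ssubst s e.1 = ssubst s e.2 := fun e he =>
    h1 e (List.mem_flatMap.mpr ⟨t, ht, he⟩)
  have g2 : ∀ c ∈ cns n t, LCon.Holds (fun j => (s j).length) c := fun c hc =>
    h2 c (List.mem_flatMap.mpr ⟨t, ht, hc⟩)
  have hch : ∀ a, thr a ∈ cns n t → ch z o (s (2 * a)) = chunk (s (2 * a)) := fun a ha =>
    ch_eq z o (thr_holds.mp (g2 _ ha)) (List.length_pos_iff.mpr (h0 _))
  cases t with
  | cat a b c =>
    have e := g1 _ (List.mem_singleton.mpr rfl)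
    simp only [ssubst, List.flatMap_cons, List.flatMap_nil, Sum.elim_inl, List.append_nil] at e
    have hb := thr_holds.mp (g2 (thr b) (by simp [cns]))
    show ch z o (s (2 * a)) = ch z o (s (2 * b)) ++ ch z o (s (2 * c))
    rw [hch a (by simp [cns]), hch b (by simp [cns]), hch c (by simp [cns]), e,
      chunk_append _ _ ⟨_, hb⟩]
  | const a x =>
    have e := g1 _ (List.mem_singleton.mpr rfl)
    simp only [ssubst, List.flatMap_cons, List.flatMap_nil, Sum.elim_inl, Sum.elim_inr,
      List.append_nil] at e
    show ch z o (s (2 * a)) = [code z o x]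
    rw [hch a (by simp [cns]), e]
    rfl
  | lin l d =>
    have hl := g2 _ (List.mem_cons_self)
    show (l.map (fun t => t.1 * (Sum.elim (fun a => ((ch z o (s (2 * a))).length : ℤ))
      (fun _ => (n : ℤ)) t.2))).sum = d
    rw [lin_eq l n (fun a => (ch z o (s (2 * a))).length) (fun j => (s j).length)]
    · simp only [LCon.Holds] at hl
      rw [hl]
      ring
    · intro a ha
      have h3 := thr_holds.mp (g2 (thr a) (by simp [cns, ha]))
      have h4 := chunk_length (s (2 * a)) ⟨_, h3⟩
      show (ch z o (s (2 * a))).length = (s (2 * a + 1)).length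
      rw [hch a (by simp [cns, ha])]
      omega

private lemma complete {k : ℕ} {z o : Fin k} {C : List Atm} {n : ℕ}
    {s : ℕ → List (Fin 6)} (h0 : ∀ i, s i ≠ []) (h : ∀ t ∈ C, Atm.Holds id s n t) :
    (ins z o C n).Solvable := by
  set t : ℕ → List (Fin k) := fun j =>
    if j % 2 = 0 then unchunk ((s (j / 2)).map (code z o))
    else List.replicate (s (j / 2)).length z with ht
  have t0 : ∀ a, t (2 * a) = unchunk ((s a).map (code z o)) := by
    intro a
    simp only [ht]
    rw [if_pos (by omega)]
    congr 3
    omega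
  have t1 : ∀ a, t (2 * a + 1) = List.replicate (s a).length z := by
    intro a
    simp only [ht]
    rw [if_neg (by omega)]
    congr 3
    omega
  have l0 : ∀ a, (t (2 * a)).length = 3 * (s a).length := by
    intro a
    rw [t0, unchunk_length, List.length_map]
  have l1 : ∀ a, (t (2 * a + 1)).length = (s a).length := by
    intro a
    rw [t1, List.length_replicate]
  have hpos : ∀ a, 0 < (s a).length := fun a => List.length_pos_iff.mpr (h0 a)
  have hthr : ∀ a, LCon.Holds (fun j => (t j).length) (thr a) := by
    intro a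
    rw [thr_holds, l0, l1]
  have hlinthr : ∀ l, ∀ c ∈ linThr l, LCon.Holds (fun j => (t j).length) c := by
    intro l
    induction l with
    | nil => simp [linThr]
    | cons u l ih =>
      obtain ⟨u, a | v⟩ := u
      · intro c hc
        simp only [linThr, List.mem_cons] at hc
        rcases hc with rfl | hc
        · exact hthr a
        · exact ih c hc
      · intro c hc
        exact ih c (by simpa [linThr] using hc)
  refine ⟨t, ?_, ?_, ?_⟩
  · intro j
    rw [← List.length_pos_iff]
    rcases Nat.even_or_odd' j with ⟨a, rfl | rfl⟩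
    · rw [l0]; have := hpos a; omega
    · rw [l1]; exact hpos a
  · intro e he
    obtain ⟨u, hu, heu⟩ := List.mem_flatMap.mp he
    have hh := h u hu
    cases u with
    | cat a b c =>
      simp only [eqs, List.mem_singleton] at heu
      subst heu
      simp only [ssubst, List.flatMap_cons, List.flatMap_nil, Sum.elim_inl, List.append_nil]
      have hh' : s a = s b ++ s c := hh
      rw [t0, t0, t0, hh', List.map_append, unchunk_append]
    | const a x =>
      simp only [eqs, List.mem_singleton] at heu
      subst heu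
      simp only [ssubst, List.flatMap_cons, List.flatMap_nil, Sum.elim_inl, Sum.elim_inr,
        List.append_nil]
      have hh' : s a = [x] := hh
      rw [t0, hh']
      simp [unchunk]
    | lin l d => simp [eqs] at heu
  · intro c hc
    obtain ⟨u, hu, hcu⟩ := List.mem_flatMap.mp hc
    have hh := h u hu
    cases u with
    | cat a b c' =>
      simp only [cns, List.mem_cons, List.not_mem_nil, or_false] at hcu
      rcases hcu with rfl | rfl | rfl
      exacts [hthr _, hthr _, hthr _]
    | const a x =>
      simp only [cns, List.mem_singleton] at hcu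
      subst hcu
      exact hthr _
    | lin l d =>
      simp only [cns, List.mem_cons] at hcu
      rcases hcu with rfl | hcu
      · have hh' : (l.map (fun t => t.1 * (Sum.elim (fun a => ((s a).length : ℤ))
          (fun _ => (n : ℤ)) t.2))).sum = d := hh
        rw [lin_eq l n (fun a => (s a).length) (fun j => (t j).length)
          (fun a _ => (l1 a).symm)] at hh'
        simp only [LCon.Holds]
        linarith
      · exact hlinthr l c hcu

/-- row R1 -/
theorem semigroup_reduction {R : (Unit → ℕ) → Prop} (hR : LD R) (k : ℕ) (hk : 2 ≤ k) :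
    ∃ (m : ℕ) (I : ℕ → ℕ → SInst (Fin k)),
      (∀ i, Computable (I i)) ∧ (∀ i n, (I i n).Proper) ∧
      ∀ n, R (fun _ => n) ↔ ∃ i < m, (I i n).Solvable := by
  obtain ⟨F, hF1, hF2⟩ := hR
  let z : Fin k := ⟨0, by omega⟩
  let o : Fin k := ⟨1, by omega⟩
  have hzo : z ≠ o := by
    intro h
    have := congrArg Fin.val h
    simp [z, o] at this
  refine ⟨(dnf F).length, fun i => ins z o ((dnf F)[i]?.getD []), fun i => computable_ins _ _ _,
    fun i n => ins_proper _ _ _ _, fun n => ⟨fun hn => ?_, ?_⟩⟩
  · obtain ⟨s, hs0, hs⟩ := hF1 _ hn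
    obtain ⟨C, hC, hCs⟩ := (dnf_iff _ _ _ _).mp hs
    obtain ⟨i, hi, rfl⟩ := List.mem_iff_getElem.mp hC
    refine ⟨i, hi, ?_⟩
    show (ins z o ((dnf F)[i]?.getD []) n).Solvable
    rw [List.getElem?_eq_getElem hi]
    exact complete hs0 hCs
  · rintro ⟨i, hi, s, h0, h1, h2⟩
    simp only [List.getElem?_eq_getElem hi, Option.getD_some] at h1 h2
    exact hF2 _ (code z o) (code_injective hzo) (fun a => ch z o (s (2 * a))) _
      (fun _ => ch_ne z o _)
      ((dnf_iff _ _ _ _).mpr ⟨_, List.getElem_mem hi, sound h0 h1 h2⟩)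

end WE57b
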