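import Pool.Agent.Lib.WE57b.RZ

namespace WE57b

private lemma R2_primrec_cast : Primrec (fun n : ℕ => (n : ℤ)) := by
  rw [← Primrec.encode_iff]
  have h : (fun n : ℕ => Encodable.encode ((n : ℤ))) = fun n => 2 * n := by
    funext n
    show Equiv.intEquivNat (n : ℤ) = _
    rfl
  rw [h]
  exact Primrec.nat_mul.comp (Primrec.const 2) Primrec.id

/-- the length of `x_{2a+1}` is three times the length of `x_{2a+2}`, plus three -/
private def R2_thr (a : ℕ) : LCon := ([(1, 2 * a + 1), (-3, 2 * a + 2)], 3)

private def R2_term (t : ℤ × (ℕ ⊕ Unit)) : ℤ × ℕ :=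
  Sum.elim (fun a => (t.1, 2 * a + 1)) (fun _ => (3 * t.1, 0)) t.2

private def R2_lthr (l : List (ℤ × (ℕ ⊕ Unit))) : List LCon :=
  l.flatMap (fun t => Sum.elim (fun a => [R2_thr a]) (fun _ => []) t.2)

private def R2_cns : Atm → List LCon
  | .cat a b c => [([(1, 2 * a + 1), (-1, 2 * b + 1), (-1, 2 * c + 1)], 0), R2_thr a, R2_thr b,
      R2_thr c]
  | .const a _ => [R2_thr a]
  | .lin l d => (l.map R2_term, 3 * d) :: R2_lthr l

private def R2_eqs {k : ℕ} (z o : Fin k) :
    Atm → List (List ((ℕ ⊕ Fin k) × Bool) × List ((ℕ ⊕ Fin k) × Bool))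
  | .cat a b c => [([(Sum.inl (2 * a + 1), true)],
      [(Sum.inl (2 * b + 1), true), (Sum.inl (2 * c + 1), true)])]
  | .const a x => [([(Sum.inl (2 * a + 1), true)], [(Sum.inr (code z o x).1, true),
      (Sum.inr (code z o x).2.1, true), (Sum.inr (code z o x).2.2, true)])]
  | .lin _ _ => []

private def R2_ins {k : ℕ} (z o : Fin k) (C : List Atm) (n : ℕ) : GInst (Fin k) :=
  (C.flatMap (R2_eqs z o), ([(1, 0)], (n : ℤ)) :: C.flatMap R2_cns)

private lemma R2_computable {k : ℕ} (z o : Fin k) (C : List Atm) :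
    Computable (R2_ins z o C) := by
  refine Primrec.to_comp ?_
  exact Primrec.pair (Primrec.const _) (Primrec.list_cons.comp
    (Primrec.pair (Primrec.const _) R2_primrec_cast) (Primrec.const _))

private lemma R2_thr_holds {len : ℕ → ℕ} {a : ℕ} :
    LCon.Holds len (R2_thr a) ↔ len (2 * a + 1) = 3 * len (2 * a + 2) + 3 := by
  simp only [LCon.Holds, R2_thr, List.map_cons, List.map_nil, List.sum_cons, List.sum_nil]
  constructor
  · intro h; omega
  · intro h; omega

private lemma R2_cat_holds {len : ℕ → ℕ} {a b c : ℕ} :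
    LCon.Holds len ([(1, 2 * a + 1), (-1, 2 * b + 1), (-1, 2 * c + 1)], 0) ↔
      len (2 * a + 1) = len (2 * b + 1) + len (2 * c + 1) := by
  simp only [LCon.Holds, List.map_cons, List.map_nil, List.sum_cons, List.sum_nil]
  constructor
  · intro h; omega
  · intro h; omega

private lemma R2_zero_holds {len : ℕ → ℕ} {n : ℕ} :
    LCon.Holds len ([(1, 0)], (n : ℤ)) ↔ len 0 = n := by
  simp only [LCon.Holds, List.map_cons, List.map_nil, List.sum_cons, List.sum_nil]
  constructor
  · intro h; omega
  · intro h; omega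

private lemma R2_lin_eq (l : List (ℤ × (ℕ ⊕ Unit))) (n : ℕ) (len len' : ℕ → ℕ)
    (h0 : len' 0 = n) (h : ∀ a, R2_thr a ∈ R2_lthr l → len' (2 * a + 1) = 3 * len a) :
    ((l.map R2_term).map (fun t => t.1 * (len' t.2 : ℤ))).sum =
    3 * (l.map (fun t => t.1 * (Sum.elim (fun a => (len a : ℤ)) (fun _ => (n : ℤ)) t.2))).sum := by
  induction l with
  | nil => simp
  | cons t l ih =>
    obtain ⟨t, a | u⟩ := t
    · have h1 := ih (fun a ha => h a (by
        simp only [R2_lthr, List.flatMap_cons, List.mem_append]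
        exact Or.inr ha))
      have h2 := h a (by simp [R2_lthr])
      simp only [List.map_cons, List.sum_cons, Sum.elim_inl, R2_term, h2] at h1 ⊢
      rw [h1]
      push_cast
      ring
    · have h1 := ih (fun a ha => h a (by
        simp only [R2_lthr, List.flatMap_cons, List.mem_append]
        exact Or.inr ha))
      simp only [List.map_cons, List.sum_cons, Sum.elim_inr, R2_term, h0] at h1 ⊢
      rw [h1]
      ring

private lemma R2_pos {k : ℕ} (L : List (Fin k)) :
    (FreeGroup.mk (L.map (fun a => (a, true)))).toWord = L.map (fun a => (a, true)) := by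
  rw [FreeGroup.toWord_mk, ← FreeGroup.isReduced_iff_reduce_eq]
  apply List.Pairwise.isChain
  rw [List.pairwise_map]
  exact List.pairwise_of_forall (fun _ _ _ => rfl)

private lemma R2_mul {k : ℕ} (x y : FreeGroup (Fin k))
    (h : (x * y).toWord.length = x.toWord.length + y.toWord.length) :
    (x * y).toWord = x.toWord ++ y.toWord := by
  have hs : (x * y).toWord.Sublist (x.toWord ++ y.toWord) := by
    rw [FreeGroup.toWord_mul]
    exact FreeGroup.reduce.red.sublist
  exact hs.eq_of_length (by rw [h, List.length_append])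

private lemma R2_code {k : ℕ} (z o : Fin k) (x : Fin 6) :
    code (z, true) (o, true) x =
      (((code z o x).1, true), ((code z o x).2.1, true), ((code z o x).2.2, true)) := by
  fin_cases x <;> rfl

/-- the words of blocks -/
private def R2_s {k : ℕ} (z : Fin k) (g : ℕ → FreeGroup (Fin k)) (a : ℕ) :
    List ((Fin k × Bool) × (Fin k × Bool) × (Fin k × Bool)) :=
  if (g (2 * a + 1)).toWord.length = 3 * (g (2 * a + 2)).toWord.length + 3 then
    chunk (g (2 * a + 1)).toWord
  else [((z, true), (z, true), (z, true))]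

private lemma R2_s_pos {k : ℕ} {z : Fin k} {g : ℕ → FreeGroup (Fin k)} {a : ℕ}
    (h : (g (2 * a + 1)).toWord.length = 3 * (g (2 * a + 2)).toWord.length + 3) :
    R2_s z g a = chunk (g (2 * a + 1)).toWord := by
  rw [R2_s, if_pos h]

private lemma R2_s_len {k : ℕ} {z : Fin k} {g : ℕ → FreeGroup (Fin k)} {a : ℕ}
    (h : (g (2 * a + 1)).toWord.length = 3 * (g (2 * a + 2)).toWord.length + 3) :
    (g (2 * a + 1)).toWord.length = 3 * (R2_s z g a).length := by
  rw [R2_s_pos h, chunk_length _ (by rw [h]; omega)]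

private lemma R2_s_ne {k : ℕ} (z : Fin k) (g : ℕ → FreeGroup (Fin k)) (a : ℕ) :
    R2_s z g a ≠ [] := by
  by_cases h : (g (2 * a + 1)).toWord.length = 3 * (g (2 * a + 2)).toWord.length + 3
  · have h1 := R2_s_len (z := z) h
    intro h2
    rw [h2, List.length_nil] at h1
    omega
  · rw [R2_s, if_neg h]
    simp

private lemma R2_sound {k : ℕ} {z o : Fin k} {C : List Atm} {n : ℕ} {g : ℕ → FreeGroup (Fin k)}
    (h1 : ∀ e ∈ (R2_ins z o C n).1, geval g e.1 = geval g e.2)
    (h2 : ∀ c ∈ (R2_ins z o C n).2, LCon.Holds (fun j => ((g j).toWord).length) c) :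
    ∀ t ∈ C, Atm.Holds (code (z, true) (o, true)) (R2_s z g) n t := by
  intro t ht
  have g1 : ∀ e ∈ R2_eqs z o t, geval g e.1 = geval g e.2 := fun e he =>
    h1 e (List.mem_flatMap.mpr ⟨t, ht, he⟩)
  have g2 : ∀ c ∈ R2_cns t, LCon.Holds (fun j => ((g j).toWord).length) c := fun c hc =>
    h2 c (List.mem_cons_of_mem _ (List.mem_flatMap.mpr ⟨t, ht, hc⟩))
  have g0 : (g 0).toWord.length = n := R2_zero_holds.mp (h2 _ List.mem_cons_self)
  cases t with
  | cat a b c =>
    have e := g1 _ (List.mem_singleton.mpr rfl)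
    simp only [geval, FreeGroup.lift_mk, List.map_cons, List.map_nil, List.prod_cons,
      List.prod_nil, cond_true, Sum.elim_inl, mul_one] at e
    have hl : (g (2 * a + 1)).toWord.length =
        (g (2 * b + 1)).toWord.length + (g (2 * c + 1)).toWord.length :=
      R2_cat_holds.mp (g2 _ List.mem_cons_self)
    have ha := R2_thr_holds.mp (g2 (R2_thr a) (by simp [R2_cns]))
    have hb := R2_thr_holds.mp (g2 (R2_thr b) (by simp [R2_cns]))
    have hc := R2_thr_holds.mp (g2 (R2_thr c) (by simp [R2_cns]))
    show R2_s z g a = R2_s z g b ++ R2_s z g c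
    rw [R2_s_pos ha, R2_s_pos hb, R2_s_pos hc, e, R2_mul _ _ (by rw [← e]; exact hl)]
    exact chunk_append _ _ ⟨(g (2 * b + 2)).toWord.length + 1, by rw [hb]; ring⟩
  | const a x =>
    have e := g1 _ (List.mem_singleton.mpr rfl)
    simp only [geval, FreeGroup.lift_mk, List.map_cons, List.map_nil, List.prod_cons,
      List.prod_nil, cond_true, Sum.elim_inl, Sum.elim_inr, mul_one] at e
    have ha := R2_thr_holds.mp (g2 (R2_thr a) (by simp [R2_cns]))
    have e2 : g (2 * a + 1) = FreeGroup.mk ([(code z o x).1, (code z o x).2.1,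
        (code z o x).2.2].map (fun a => (a, true))) := by
      rw [e]
      rfl
    show R2_s z g a = [code (z, true) (o, true) x]
    rw [R2_s_pos ha, e2, R2_pos, R2_code]
    rfl
  | lin l d =>
    have hl := g2 _ (List.mem_cons_self)
    show (l.map (fun t => t.1 * (Sum.elim (fun a => ((R2_s z g a).length : ℤ))
      (fun _ => (n : ℤ)) t.2))).sum = d
    have h3 := R2_lin_eq l n (fun a => (R2_s z g a).length) (fun j => (g j).toWord.length) g0
      (fun a ha => R2_s_len (R2_thr_holds.mp (g2 (R2_thr a) (by simp [R2_cns, ha]))))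
    simp only [LCon.Holds] at hl
    rw [h3] at hl
    linarith

private lemma R2_complete {k : ℕ} {z o : Fin k} {C : List Atm} {n : ℕ}
    {s : ℕ → List (Fin 6)} (h0 : ∀ i, s i ≠ []) (h : ∀ t ∈ C, Atm.Holds id s n t) :
    (R2_ins z o C n).Solvable := by
  set t : ℕ → List (Fin k) := fun j =>
    if j = 0 then List.replicate n z
    else if j % 2 = 1 then unchunk ((s (j / 2)).map (code z o))
    else List.replicate ((s (j / 2 - 1)).length - 1) z with ht
  have tz : t 0 = List.replicate n z := by simp [ht]
  have t0 : ∀ a, t (2 * a + 1) = unchunk ((s a).map (code z o)) := by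
    intro a
    simp only [ht]
    rw [if_neg (by omega), if_pos (by omega)]
    congr 3
    omega
  have t1 : ∀ a, t (2 * a + 2) = List.replicate ((s a).length - 1) z := by
    intro a
    simp only [ht]
    rw [if_neg (by omega), if_neg (by omega)]
    congr 4
    omega
  have hpos : ∀ a, 0 < (s a).length := fun a => List.length_pos_iff.mpr (h0 a)
  set g : ℕ → FreeGroup (Fin k) := fun j => FreeGroup.mk ((t j).map (fun a => (a, true))) with hg
  have gw : ∀ j, (g j).toWord = (t j).map (fun a => (a, true)) := fun j => R2_pos _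
  have gl : ∀ j, (g j).toWord.length = (t j).length := by
    intro j
    rw [gw, List.length_map]
  have lz : (g 0).toWord.length = n := by
    rw [gl, tz, List.length_replicate]
  have l0 : ∀ a, (g (2 * a + 1)).toWord.length = 3 * (s a).length := by
    intro a
    rw [gl, t0, unchunk_length, List.length_map]
  have l1 : ∀ a, (g (2 * a + 2)).toWord.length = (s a).length - 1 := by
    intro a
    rw [gl, t1, List.length_replicate]
  have hthr : ∀ a, LCon.Holds (fun j => ((g j).toWord).length) (R2_thr a) := by
    intro a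
    rw [R2_thr_holds, l0, l1]
    have := hpos a
    omega
  refine ⟨g, ?_, ?_⟩
  · intro e he
    obtain ⟨u, hu, heu⟩ := List.mem_flatMap.mp he
    have hh := h u hu
    cases u with
    | cat a b c =>
      simp only [R2_eqs, List.mem_singleton] at heu
      subst heu
      simp only [geval, FreeGroup.lift_mk, List.map_cons, List.map_nil, List.prod_cons,
        List.prod_nil, cond_true, Sum.elim_inl, mul_one]
      have hh' : s a = s b ++ s c := hh
      simp only [hg, t0, hh', List.map_append, unchunk_append, FreeGroup.mul_mk]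
    | const a x =>
      simp only [R2_eqs, List.mem_singleton] at heu
      subst heu
      simp only [geval, FreeGroup.lift_mk, List.map_cons, List.map_nil, List.prod_cons,
        List.prod_nil, cond_true, Sum.elim_inl, Sum.elim_inr, mul_one]
      have hh' : s a = [x] := hh
      simp only [hg, t0, hh']
      rfl
    | lin l d => simp [R2_eqs] at heu
  · intro c hc
    rcases List.mem_cons.mp hc with rfl | hc
    · exact R2_zero_holds.mpr lz
    obtain ⟨u, hu, hcu⟩ := List.mem_flatMap.mp hc
    have hh := h u hu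
    cases u with
    | cat a b c' =>
      simp only [R2_cns, List.mem_cons, List.not_mem_nil, or_false] at hcu
      rcases hcu with rfl | rfl | rfl | rfl
      · rw [R2_cat_holds, l0, l0, l0]
        have hh' : s a = s b ++ s c' := hh
        rw [hh', List.length_append]
        ring
      exacts [hthr _, hthr _, hthr _]
    | const a x =>
      simp only [R2_cns, List.mem_singleton] at hcu
      subst hcu
      exact hthr _
    | lin l d =>
      simp only [R2_cns, List.mem_cons] at hcu
      rcases hcu with rfl | hcu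
      · have hh' : (l.map (fun t => t.1 * (Sum.elim (fun a => ((s a).length : ℤ))
          (fun _ => (n : ℤ)) t.2))).sum = d := hh
        have h3 := R2_lin_eq l n (fun a => (s a).length) (fun j => (g j).toWord.length) lz
          (fun a _ => l0 a)
        rw [hh'] at h3
        exact h3
      · simp only [R2_lthr, List.mem_flatMap] at hcu
        obtain ⟨⟨t, a | v⟩, -, hc2⟩ := hcu
        · simp only [Sum.elim_inl, List.mem_singleton] at hc2
          subst hc2
          exact hthr _
        · simp at hc2

/-- row R2 -/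
theorem group_reduction {R : (Unit → ℕ) → Prop} (hR : LD R) (k : ℕ) (hk : 2 ≤ k) :
    ∃ (m : ℕ) (I : ℕ → ℕ → GInst (Fin k)),
      (∀ i, Computable (I i)) ∧
      ∀ n, R (fun _ => n) ↔ ∃ i < m, (I i n).Solvable := by
  obtain ⟨F, hF1, hF2⟩ := hR
  let z : Fin k := ⟨0, by omega⟩
  let o : Fin k := ⟨1, by omega⟩
  have hzo : z ≠ o := by
    intro h
    have := congrArg Fin.val h
    simp [z, o] at this
  have hzo2 : ((z, true) : Fin k × Bool) ≠ (o, true) := by
    intro h
    exact hzo (congrArg Prod.fst h)
  refine ⟨(dnf F).length, fun i => R2_ins z o ((dnf F)[i]?.getD []),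
    fun i => R2_computable _ _ _, fun n => ⟨fun hn => ?_, ?_⟩⟩
  · obtain ⟨s, hs0, hs⟩ := hF1 _ hn
    obtain ⟨C, hC, hCs⟩ := (dnf_iff _ _ _ _).mp hs
    obtain ⟨i, hi, rfl⟩ := List.mem_iff_getElem.mp hC
    refine ⟨i, hi, ?_⟩
    show (R2_ins z o ((dnf F)[i]?.getD []) n).Solvable
    rw [List.getElem?_eq_getElem hi]
    exact R2_complete hs0 hCs
  · rintro ⟨i, hi, g, h1, h2⟩
    simp only [List.getElem?_eq_getElem hi, Option.getD_some] at h1 h2
    exact hF2 _ (code (z, true) (o, true)) (code_injective hzo2) (R2_s z g) _ (R2_s_ne z g)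
      ((dnf_iff _ _ _ _).mpr ⟨_, List.getElem_mem hi, R2_sound h1 h2⟩)

end WE57b
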