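import Pool.Agent.Lib.WE57b.RA
import Pool.Agent.Lib.WE57b.RB
import Pool.Agent.Lib.WE57b.PC
import Pool.Agent.Lib.WE57b.D

namespace WE57b

/-- A finite disjunction of computable Boolean functions. -/
def RC_any (g : ℕ → ℕ → Bool) : ℕ → ℕ → Bool
  | 0, _ => false
  | m + 1, n => RC_any g m n || g m n

theorem RC_any_computable {g : ℕ → ℕ → Bool} (hg : ∀ i, Computable (g i)) (m : ℕ) :
    Computable (RC_any g m) := by
  induction m with
  | zero => exact Computable.const false
  | succ m ih =>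
    exact (Primrec.or.to_comp.comp ih (hg m) : Computable fun n => RC_any g m n || g m n)

theorem RC_any_iff {g : ℕ → ℕ → Bool} (m n : ℕ) :
    RC_any g m n = true ↔ ∃ i < m, g i n = true := by
  induction m with
  | zero => simp [RC_any]
  | succ m ih =>
    simp only [RC_any, Bool.or_eq_true, ih]
    constructor
    · rintro (⟨i, hi, h⟩ | h)
      · exact ⟨i, by omega, h⟩
      · exact ⟨m, by omega, h⟩
    · rintro ⟨i, hi, h⟩
      rcases Nat.lt_succ_iff_lt_or_eq.1 hi with h1 | h1
      · exact Or.inl ⟨i, h1, h⟩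
      · subst h1
        exact Or.inr h

/-- No algorithm decides finitely many reductions of an undecidable predicate. -/
theorem RC_main {α : Type} [Primcodable α] {p : ℕ → Prop} (hp : ¬ ComputablePred p)
    {m : ℕ} {I : ℕ → ℕ → α} (hI : ∀ i, Computable (I i)) {Q : α → Prop} {D : α → Prop}
    (hD : ∀ i n, D (I i n)) (h : ∀ n, p n ↔ ∃ i < m, Q (I i n)) :
    ¬ ∃ f : α → Bool, Computable f ∧ ∀ x, D x → (f x = true ↔ Q x) := by
  rintro ⟨f, hf, hfQ⟩
  apply hp
  have key : ∀ n, p n ↔ RC_any (fun i n => f (I i n)) m n = true := by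
    intro n
    rw [h n, RC_any_iff]
    constructor
    · rintro ⟨i, hi, hq⟩
      exact ⟨i, hi, (hfQ _ (hD i n)).2 hq⟩
    · rintro ⟨i, hi, hq⟩
      exact ⟨i, hi, (hfQ _ (hD i n)).1 hq⟩
  classical
  refine ⟨fun n => Classical.dec _, ?_⟩
  refine (RC_any_computable (g := fun i n => f (I i n)) (fun i => hf.comp (hI i)) m).of_eq ?_
  intro n
  by_cases hn : p n
  · simp [hn, (key n).1 hn]
  · have : ¬ RC_any (fun i n => f (I i n)) m n = true := fun h => hn ((key n).2 h)
    simp only [Bool.not_eq_true] at this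
    simp [hn, this]

/-- row R3 -/
theorem semigroup_undecidable (k : ℕ) (hk : 2 ≤ k) :
    ¬ ∃ f : SInst (Fin k) → Bool, Computable f ∧
      ∀ I : SInst (Fin k), I.Proper → (f I = true ↔ I.Solvable) := by
  obtain ⟨L, hL⟩ := exists_undecidable_system
  obtain ⟨m, I, hI, hprop, hR⟩ := semigroup_reduction (LD_ex_system L) k hk
  exact RC_main hL hI hprop hR

/-- row R3 -/
theorem group_undecidable (k : ℕ) (hk : 2 ≤ k) :
    ¬ ∃ f : GInst (Fin k) → Bool, Computable f ∧
      ∀ I : GInst (Fin k), (f I = true ↔ I.Solvable) := by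
  obtain ⟨L, hL⟩ := exists_undecidable_system
  obtain ⟨m, I, hI, hR⟩ := group_reduction (LD_ex_system L) k hk
  have := RC_main (D := fun _ => True) hL hI (fun _ _ => trivial) hR
  rintro ⟨f, hf, hfI⟩
  exact this ⟨f, hf, fun x _ => hfI x⟩

end WE57b
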