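import Mathlib

/-!
Statements for MP_57b0a1_lc: systems of equations with length constraints over free semigroups
and free groups.
-/

namespace WE57b

/-- A linear length constraint: a finite list of terms (coefficient, variable) and the
right hand side. -/
abbrev LCon := List (ℤ × ℕ) × ℤ

/-- The constraint `c` holds for the lengths `len`. -/
def LCon.Holds (len : ℕ → ℕ) (c : LCon) : Prop :=
  (c.1.map (fun t => t.1 * (len t.2 : ℤ))).sum = c.2

/-- An instance for the free semigroup: a finite list of equations (pairs of words in variables
`x_j`, written `Sum.inl j`, and letters, written `Sum.inr a`), and a finite list of length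
constraints. -/
abbrev SInst (A : Type) := List (List (ℕ ⊕ A) × List (ℕ ⊕ A)) × List LCon

/-- The word obtained from `u` by substituting the words `s j` for the variables. -/
def ssubst {A : Type} (s : ℕ → List A) (u : List (ℕ ⊕ A)) : List A :=
  u.flatMap (Sum.elim s (fun a => [a]))

/-- Both sides of every equation are nonempty, as in the free semigroup. -/
def SInst.Proper {A : Type} (I : SInst A) : Prop := ∀ e ∈ I.1, e.1 ≠ [] ∧ e.2 ≠ []

/-- The instance has a solution in nonempty words which satisfies the length constraints. -/
def SInst.Solvable {A : Type} (I : SInst A) : Prop :=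
  ∃ s : ℕ → List A, (∀ j, s j ≠ []) ∧ (∀ e ∈ I.1, ssubst s e.1 = ssubst s e.2) ∧
    ∀ c ∈ I.2, LCon.Holds (fun j => (s j).length) c

/-- An instance for the free group: words in the variables, the letters and their inverses. The
pair `(x, true)` stands for `x` and `(x, false)` for its inverse. -/
abbrev GInst (A : Type) := List (List ((ℕ ⊕ A) × Bool) × List ((ℕ ⊕ A) × Bool)) × List LCon

/-- The value of the word `u` in the free group when the variable `x_j` has value `g j`. -/
def geval {A : Type} (g : ℕ → FreeGroup A) (u : List ((ℕ ⊕ A) × Bool)) : FreeGroup A :=
  FreeGroup.lift (Sum.elim g FreeGroup.of) (FreeGroup.mk u)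

/-- The instance has a solution in the free group which satisfies the length constraints. The
length of an element is the length of its reduced word. -/
def GInst.Solvable {A : Type} [DecidableEq A] (I : GInst A) : Prop :=
  ∃ g : ℕ → FreeGroup A, (∀ e ∈ I.1, geval g e.1 = geval g e.2) ∧
    ∀ c ∈ I.2, LCon.Holds (fun j => (FreeGroup.toWord (g j)).length) c

end WE57b
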