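import Pool.Agent.Lib.WE57b.Defs
import Pool.Agent.Lib.WE57b.Stmt

/-!
Disjunctive normal form of formulas with one number variable, and blocks of three letters.
-/

namespace WE57b

/-- Atomic formulas with one number variable. -/
inductive Atm : Type
  | cat (a b c : ℕ) : Atm
  | const (a : ℕ) (x : Fin 6) : Atm
  | lin (l : List (ℤ × (ℕ ⊕ Unit))) (d : ℤ) : Atm

/-- Meaning of an atomic formula; `n` is the value of the number variable. -/
def Atm.Holds {Γ : Type} (φ : Fin 6 → Γ) (s : ℕ → List Γ) (n : ℕ) : Atm → Prop
  | .cat a b c => s a = s b ++ s c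
  | .const a x => s a = [φ x]
  | .lin l d => (l.map (fun t => t.1 *
      (Sum.elim (fun a => ((s a).length : ℤ)) (fun _ => (n : ℤ)) t.2))).sum = d

/-- Disjunctive normal form. -/
def dnf : Fml Unit → List (List Atm)
  | .cat a b c => [[.cat a b c]]
  | .const a x => [[.const a x]]
  | .lin l d => [[.lin l d]]
  | .and F G => (dnf F).flatMap (fun C => (dnf G).map (fun D => C ++ D))
  | .or F G => dnf F ++ dnf G

/-- row R0 -/
theorem dnf_iff {Γ : Type} (φ : Fin 6 → Γ) (s : ℕ → List Γ) (v : Unit → ℕ) (F : Fml Unit) :
    F.Holds φ s v ↔ ∃ C ∈ dnf F, ∀ t ∈ C, Atm.Holds φ s (v ()) t := by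
  induction F with
  | cat a b c => simp [dnf, Fml.Holds, Atm.Holds]
  | const a x => simp [dnf, Fml.Holds, Atm.Holds]
  | lin l d => simp [dnf, Fml.Holds, Atm.Holds]
  | and F G hF hG =>
    simp only [Fml.Holds, dnf, List.mem_flatMap, List.mem_map]
    rw [hF, hG]
    constructor
    · rintro ⟨⟨C, hC, h1⟩, D, hD, h2⟩
      refine ⟨C ++ D, ⟨C, hC, D, hD, rfl⟩, fun t ht => ?_⟩
      rcases List.mem_append.1 ht with h | h
      · exact h1 t h
      · exact h2 t h
    · rintro ⟨_, ⟨C, hC, D, hD, rfl⟩, h⟩
      exact ⟨⟨C, hC, fun t ht => h t (List.mem_append_left _ ht)⟩,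
        D, hD, fun t ht => h t (List.mem_append_right _ ht)⟩
  | or F G hF hG =>
    simp only [Fml.Holds, dnf, List.mem_append]
    rw [hF, hG]
    constructor
    · rintro (⟨C, hC, h⟩ | ⟨C, hC, h⟩)
      · exact ⟨C, Or.inl hC, h⟩
      · exact ⟨C, Or.inr hC, h⟩
    · rintro ⟨C, hC | hC, h⟩
      · exact Or.inl ⟨C, hC, h⟩
      · exact Or.inr ⟨C, hC, h⟩

/-- Cut a word into blocks of three letters (a remainder of one or two letters is dropped). -/
def chunk {Γ : Type} : List Γ → List (Γ × Γ × Γ)
  | a :: b :: c :: l => (a, b, c) :: chunk l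
  | _ => []

/-- The concatenation of the blocks. -/
def unchunk {Γ : Type} (l : List (Γ × Γ × Γ)) : List Γ := l.flatMap (fun t => [t.1, t.2.1, t.2.2])

/-- row R0 -/
theorem chunk_append {Γ : Type} (x y : List Γ) (h : 3 ∣ x.length) :
    chunk (x ++ y) = chunk x ++ chunk y := by
  induction x using chunk.induct with
  | case1 a b c l ih =>
    have h' : 3 ∣ l.length := by
      simp only [List.length_cons] at h
      omega
    simp only [List.cons_append, chunk, ih h']
  | case2 l hl =>
    match l, h, hl with
    | [], _, _ => simp [chunk]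
    | [a], h, _ => simp at h
    | [a, b], h, _ => simp at h
    | a :: b :: c :: l, _, hl => exact absurd rfl (hl a b c l)

/-- row R0 -/
theorem chunk_length {Γ : Type} (x : List Γ) (h : 3 ∣ x.length) :
    3 * (chunk x).length = x.length := by
  induction x using chunk.induct with
  | case1 a b c l ih =>
    have h' : 3 ∣ l.length := by
      simp only [List.length_cons] at h
      omega
    simp only [chunk, List.length_cons]
    have := ih h'
    omega
  | case2 l hl =>
    match l, h, hl with
    | [], _, _ => simp [chunk]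
    | [a], h, _ => simp at h
    | [a, b], h, _ => simp at h
    | a :: b :: c :: l, _, hl => exact absurd rfl (hl a b c l)

/-- row R0 -/
theorem unchunk_append {Γ : Type} (x y : List (Γ × Γ × Γ)) :
    unchunk (x ++ y) = unchunk x ++ unchunk y := by
  exact List.flatMap_append

/-- row R0 -/
theorem unchunk_length {Γ : Type} (x : List (Γ × Γ × Γ)) :
    (unchunk x).length = 3 * x.length := by
  induction x with
  | nil => rfl
  | cons t l ih =>
    have h : unchunk (t :: l) = [t.1, t.2.1, t.2.2] ++ unchunk l := rfl
    rw [h, List.length_append, ih, List.length_cons]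
    simp only [List.length_cons, List.length_nil]
    omega

/-- Six blocks of three letters from `z`, `o`. -/
def code {Γ : Type} (z o : Γ) : Fin 6 → Γ × Γ × Γ :=
  ![(z, z, z), (z, z, o), (z, o, z), (z, o, o), (o, z, z), (o, z, o)]

/-- row R0 -/
theorem code_injective {Γ : Type} {z o : Γ} (h : z ≠ o) : Function.Injective (code z o) := by
  intro i j hij
  fin_cases i <;> fin_cases j <;> simp [code] at hij ⊢ <;>
    first
    | exact absurd hij h
    | exact absurd hij.symm h
    | exact absurd hij.1 h
    | exact absurd hij.1.symm h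

end WE57b
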