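import Pool.Agent.Lib.WE57b.Defs

namespace WE57b

/-- Value of a term of a linear atom. -/
def SA_ev {ν Γ : Type} (s : ℕ → List Γ) (v : ν → ℕ) (t : ℤ × (ℕ ⊕ ν)) : ℤ :=
  t.1 * (Sum.elim (fun a => ((s a).length : ℤ)) (fun i => (v i : ℤ)) t.2)

/-- The terms which replace a term of a linear atom. -/
def SA_sub {ν μ : Type} (f : ℕ → ℕ) (T : ν → List (ℤ × (ℕ ⊕ μ)) × ℤ) (t : ℤ × (ℕ ⊕ ν)) :
    List (ℤ × (ℕ ⊕ μ)) :=
  Sum.elim (fun a => [(t.1, Sum.inl (f a))]) (fun k => (T k).1.map (fun u => (t.1 * u.1, u.2))) t.2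

/-- The constant which comes from the replacement of a term of a linear atom. -/
def SA_cst {ν μ : Type} (T : ν → List (ℤ × (ℕ ⊕ μ)) × ℤ) (t : ℤ × (ℕ ⊕ ν)) : ℤ :=
  Sum.elim (fun _ => (0 : ℤ)) (fun k => t.1 * (T k).2) t.2

/-- Rename word variables and replace number variables by linear terms. -/
def Fml.trans {ν μ : Type} (f : ℕ → ℕ) (T : ν → List (ℤ × (ℕ ⊕ μ)) × ℤ) : Fml ν → Fml μ
  | .cat a b c => .cat (f a) (f b) (f c)
  | .const a x => .const (f a) x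
  | .lin l d => .lin (l.flatMap (SA_sub f T)) (d - (l.map (SA_cst T)).sum)
  | .and F G => .and (F.trans f T) (G.trans f T)
  | .or F G => .or (F.trans f T) (G.trans f T)

theorem SA_holds_lin {ν Γ : Type} (φ : Fin 6 → Γ) (s : ℕ → List Γ) (v : ν → ℕ)
    (l : List (ℤ × (ℕ ⊕ ν))) (d : ℤ) :
    (Fml.lin l d).Holds φ s v ↔ (l.map (SA_ev s v)).sum = d := Iff.rfl

theorem SA_sum_sub {ν μ Γ : Type} (f : ℕ → ℕ) (T : ν → List (ℤ × (ℕ ⊕ μ)) × ℤ)
    (s : ℕ → List Γ) (v : μ → ℕ) (w : ν → ℕ)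
    (hw : ∀ k, (w k : ℤ) = ((T k).1.map (SA_ev s v)).sum + (T k).2) (t : ℤ × (ℕ ⊕ ν)) :
    ((SA_sub f T t).map (SA_ev s v)).sum + SA_cst T t = SA_ev (s ∘ f) w t := by
  obtain ⟨c, a | k⟩ := t
  · simp [SA_sub, SA_cst, SA_ev]
  · have h : ∀ L : List (ℤ × (ℕ ⊕ μ)),
        ((L.map (fun u => (c * u.1, u.2))).map (SA_ev s v)).sum = c * (L.map (SA_ev s v)).sum := by
      intro L
      induction L with
      | nil => simp
      | cons u L ih =>
        simp only [List.map_cons, List.sum_cons, ih]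
        simp only [SA_ev]
        ring
    simp only [SA_sub, SA_cst, Sum.elim_inr]
    rw [h]
    simp only [SA_ev, Sum.elim_inr]
    rw [hw k]
    ring

theorem SA_holds_trans {ν μ Γ : Type} (f : ℕ → ℕ) (T : ν → List (ℤ × (ℕ ⊕ μ)) × ℤ)
    (φ : Fin 6 → Γ) (s : ℕ → List Γ) (v : μ → ℕ) (w : ν → ℕ)
    (hw : ∀ k, (w k : ℤ) = ((T k).1.map (SA_ev s v)).sum + (T k).2) (F : Fml ν) :
    (F.trans f T).Holds φ s v ↔ F.Holds φ (s ∘ f) w := by
  induction F with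
  | cat a b c => exact Iff.rfl
  | const a x => exact Iff.rfl
  | lin l d =>
    have h : ((l.flatMap (SA_sub f T)).map (SA_ev s v)).sum + (l.map (SA_cst T)).sum =
        (l.map (SA_ev (s ∘ f) w)).sum := by
      induction l with
      | nil => simp
      | cons t l ih =>
        rw [List.flatMap_cons, List.map_append, List.sum_append, List.map_cons, List.sum_cons,
          List.map_cons, List.sum_cons, ← ih, ← SA_sum_sub f T s v w hw t]
        ring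
    show (Fml.lin (l.flatMap (SA_sub f T)) (d - (l.map (SA_cst T)).sum)).Holds φ s v ↔ _
    rw [SA_holds_lin, SA_holds_lin, ← h]
    constructor <;> intro h1 <;> linarith
  | and F G ihF ihG =>
    show (F.trans f T).Holds φ s v ∧ (G.trans f T).Holds φ s v ↔ _
    rw [ihF, ihG]
    exact Iff.rfl
  | or F G ihF ihG =>
    show (F.trans f T).Holds φ s v ∨ (G.trans f T).Holds φ s v ↔ _
    rw [ihF, ihG]
    exact Iff.rfl

/-- Rename the word variables. -/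
def Fml.mapW {ν : Type} (f : ℕ → ℕ) (F : Fml ν) : Fml ν :=
  F.trans f (fun k => ([(1, Sum.inr k)], 0))

theorem SA_holds_mapW {ν Γ : Type} (f : ℕ → ℕ) (φ : Fin 6 → Γ) (s : ℕ → List Γ) (v : ν → ℕ)
    (F : Fml ν) : (F.mapW f).Holds φ s v ↔ F.Holds φ (s ∘ f) v := by
  refine SA_holds_trans f _ φ s v v (fun k => ?_) F
  simp [SA_ev]

/-- row S1 -/
theorem LD.and {ν : Type} {R Q : (ν → ℕ) → Prop} (hR : LD R) (hQ : LD Q) :
    LD (fun v => R v ∧ Q v) := by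
  obtain ⟨F, hF1, hF2⟩ := hR
  obtain ⟨G, hG1, hG2⟩ := hQ
  refine ⟨.and (F.mapW (fun j => 2 * j)) (G.mapW (fun j => 2 * j + 1)), ?_, ?_⟩
  · rintro v ⟨h1, h2⟩
    obtain ⟨s1, hs1, h1⟩ := hF1 v h1
    obtain ⟨s2, hs2, h2⟩ := hG1 v h2
    refine ⟨fun i => if i % 2 = 0 then s1 (i / 2) else s2 (i / 2), ?_, ?_, ?_⟩
    · intro i
      show (if i % 2 = 0 then s1 (i / 2) else s2 (i / 2)) ≠ []
      split_ifs
      · exact hs1 _
      · exact hs2 _
    · rw [SA_holds_mapW]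
      convert h1 using 1
      funext j
      simp
    · rw [SA_holds_mapW]
      convert h2 using 1
      funext j
      have e1 : (2 * j + 1) % 2 ≠ 0 := by omega
      have e2 : (2 * j + 1) / 2 = j := by omega
      simp only [Function.comp, e2]
      rw [if_neg e1]
  · rintro Γ φ hφ s v hs ⟨h1, h2⟩
    rw [SA_holds_mapW] at h1 h2
    exact ⟨hF2 Γ φ hφ _ v (fun i => hs _) h1, hG2 Γ φ hφ _ v (fun i => hs _) h2⟩

/-- row S1 -/
theorem LD.or {ν : Type} {R Q : (ν → ℕ) → Prop} (hR : LD R) (hQ : LD Q) :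
    LD (fun v => R v ∨ Q v) := by
  obtain ⟨F, hF1, hF2⟩ := hR
  obtain ⟨G, hG1, hG2⟩ := hQ
  refine ⟨.or F G, ?_, ?_⟩
  · rintro v (h1 | h1)
    · obtain ⟨s, hs, h⟩ := hF1 v h1
      exact ⟨s, hs, Or.inl h⟩
    · obtain ⟨s, hs, h⟩ := hG1 v h1
      exact ⟨s, hs, Or.inr h⟩
  · rintro Γ φ hφ s v hs (h | h)
    · exact Or.inl (hF2 Γ φ hφ s v hs h)
    · exact Or.inr (hG2 Γ φ hφ s v hs h)

end WE57b
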