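import Pool.Agent.Lib.WE57b.SA

namespace WE57b

/-- The linear terms for the number variables: the quantified ones become lengths of words. -/
def SB_T {ν κ : Type} [Encodable κ] : (ν ⊕ κ) → List (ℤ × (ℕ ⊕ ν)) × ℤ :=
  Sum.elim (fun i => ([(1, Sum.inr i)], 0))
    (fun k => ([(1, Sum.inl (2 * Encodable.encode k))], -1))

/-- row S2 -/
theorem LD.ex {ν κ : Type} [Encodable κ] {R : (ν ⊕ κ → ℕ) → Prop} (hR : LD R) :
    LD (fun v => ∃ x : κ → ℕ, R (Sum.elim v x)) := by
  obtain ⟨F, hF1, hF2⟩ := hR
  refine ⟨F.trans (fun j => 2 * j + 1) SB_T, ?_, ?_⟩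
  · rintro v ⟨x, hx⟩
    obtain ⟨s0, hs0, h0⟩ := hF1 _ hx
    refine ⟨fun i => if i % 2 = 0 then
      List.replicate (((Encodable.decode (i / 2) : Option κ).elim 0 x) + 1) 0 else s0 (i / 2),
      ?_, ?_⟩
    · intro i
      show (if i % 2 = 0 then
        List.replicate (((Encodable.decode (i / 2) : Option κ).elim 0 x) + 1) 0
        else s0 (i / 2)) ≠ []
      split_ifs
      · simp
      · exact hs0 _
    · rw [SA_holds_trans (w := Sum.elim v x)]
      · convert h0 using 1
        funext j
        have e1 : (2 * j + 1) % 2 ≠ 0 := by omega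
        have e2 : (2 * j + 1) / 2 = j := by omega
        simp only [Function.comp, e2]
        rw [if_neg e1]
      · rintro (i | k)
        · simp [SB_T, SA_ev]
        · simp [SB_T, SA_ev, Encodable.encodek]
  · rintro Γ φ hφ s v hs h
    refine ⟨fun k => (s (2 * Encodable.encode k)).length - 1, ?_⟩
    rw [SA_holds_trans (w := Sum.elim v (fun k => (s (2 * Encodable.encode k)).length - 1))] at h
    · exact hF2 Γ φ hφ _ _ (fun i => hs _) h
    · rintro (i | k)
      · simp [SB_T, SA_ev]
      · have h1 : 1 ≤ (s (2 * Encodable.encode k)).length :=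
          List.length_pos_iff.2 (hs _)
        simp only [SB_T, SA_ev, Sum.elim_inr, List.map_cons, List.map_nil, Sum.elim_inl,
          List.sum_cons, List.sum_nil]
        push_cast [Nat.cast_sub h1]
        ring

end WE57b
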