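import Pool.Agent.Lib.WE57b.SA
import Pool.Agent.Lib.WE57b.SB

namespace WE57b

/-- row S3 -/
theorem Aff.var {ν : Type} (i : ν) : Aff (fun v : ν → ℕ => v i) :=
  ⟨[(1, i)], 0, fun v => by simp⟩

/-- row S3 -/
theorem Aff.const {ν : Type} (c : ℕ) : Aff (fun _ : ν → ℕ => c) :=
  ⟨[], c, fun v => by simp⟩

/-- row S3 -/
theorem Aff.add {ν : Type} {f g : (ν → ℕ) → ℕ} (hf : Aff f) (hg : Aff g) :
    Aff (fun v => f v + g v) := by
  obtain ⟨l1, d1, h1⟩ := hf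
  obtain ⟨l2, d2, h2⟩ := hg
  refine ⟨l1 ++ l2, d1 + d2, fun v => ?_⟩
  show f v + g v = _
  rw [h1, h2, List.map_append, List.sum_append]
  ring

/-- row S3 -/
theorem Aff.smul {ν : Type} (c : ℕ) {f : (ν → ℕ) → ℕ} (hf : Aff f) :
    Aff (fun v => c * f v) := by
  obtain ⟨l1, d1, h1⟩ := hf
  refine ⟨l1.map (fun t => (c * t.1, t.2)), c * d1, fun v => ?_⟩
  show c * f v = _
  rw [h1]
  have h : ∀ L : List (ℕ × ν), ((L.map (fun t => (c * t.1, t.2))).map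
      (fun t => t.1 * v t.2)).sum = c * (L.map (fun t => t.1 * v t.2)).sum := by
    intro L
    induction L with
    | nil => simp
    | cons u L ih =>
      simp only [List.map_cons, List.sum_cons, ih]
      ring
  rw [h]
  ring

theorem SC_sum_pos {ν Γ : Type} (s : ℕ → List Γ) (v : ν → ℕ) (l : List (ℕ × ν)) :
    ((l.map (fun t => ((t.1 : ℤ), (Sum.inr t.2 : ℕ ⊕ ν)))).map (SA_ev s v)).sum =
      ((l.map (fun t => t.1 * v t.2)).sum : ℕ) := by
  induction l with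
  | nil => simp
  | cons u l ih =>
    simp only [List.map_cons, List.sum_cons, ih]
    simp [SA_ev]

theorem SC_sum_neg {ν Γ : Type} (s : ℕ → List Γ) (v : ν → ℕ) (l : List (ℕ × ν)) :
    ((l.map (fun t => (-(t.1 : ℤ), (Sum.inr t.2 : ℕ ⊕ ν)))).map (SA_ev s v)).sum =
      -((l.map (fun t => t.1 * v t.2)).sum : ℕ) := by
  induction l with
  | nil => simp
  | cons u l ih =>
    simp only [List.map_cons, List.sum_cons, ih]
    simp [SA_ev]
    ring

/-- row S3 -/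
theorem LD.eq {ν : Type} {f g : (ν → ℕ) → ℕ} (hf : Aff f) (hg : Aff g) :
    LD (fun v => f v = g v) := by
  obtain ⟨l1, d1, h1⟩ := hf
  obtain ⟨l2, d2, h2⟩ := hg
  have key : ∀ (Γ : Type) (φ : Fin 6 → Γ) (s : ℕ → List Γ) (v : ν → ℕ),
      (Fml.lin (l1.map (fun t => ((t.1 : ℤ), (Sum.inr t.2 : ℕ ⊕ ν))) ++
        l2.map (fun t => (-(t.1 : ℤ), (Sum.inr t.2 : ℕ ⊕ ν)))) ((d2 : ℤ) - d1)).Holds φ s v ↔
      f v = g v := by
    intro Γ φ s v
    rw [SA_holds_lin, List.map_append, List.sum_append, SC_sum_pos, SC_sum_neg, h1, h2]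
    constructor
    · intro h
      have h3 : (((l1.map (fun t => t.1 * v t.2)).sum + d1 : ℕ) : ℤ) =
          (((l2.map (fun t => t.1 * v t.2)).sum + d2 : ℕ) : ℤ) := by
        rw [Nat.cast_add, Nat.cast_add]
        linarith
      exact Int.ofNat.inj h3
    · intro h
      have h3 : (((l1.map (fun t => t.1 * v t.2)).sum + d1 : ℕ) : ℤ) =
          (((l2.map (fun t => t.1 * v t.2)).sum + d2 : ℕ) : ℤ) := by rw [h]
      rw [Nat.cast_add, Nat.cast_add] at h3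
      linarith
  obtain ⟨F, key⟩ : ∃ F : Fml ν, ∀ (Γ : Type) (φ : Fin 6 → Γ) (s : ℕ → List Γ) (v : ν → ℕ),
      F.Holds φ s v ↔ f v = g v := ⟨_, key⟩
  refine ⟨F, ?_, ?_⟩
  · intro v h
    exact ⟨fun _ => [0], fun _ => by simp, (key _ id _ v).2 h⟩
  · intro Γ φ _ s v _ h
    exact (key Γ φ s v).1 h

/-- row S3 -/
theorem LD.comp {ν : Type} {n : ℕ} {R : (Fin n → ℕ) → Prop} (hR : LD R)
    {g : Fin n → (ν → ℕ) → ℕ} (hg : ∀ k, Aff (g k)) : LD (fun v => R (fun k => g k v)) := by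
  choose l d h using hg
  obtain ⟨F, hF1, hF2⟩ := hR
  have key : ∀ (Γ : Type) (φ : Fin 6 → Γ) (s : ℕ → List Γ) (v : ν → ℕ),
      (F.trans id (fun k => ((l k).map (fun t => ((t.1 : ℤ), (Sum.inr t.2 : ℕ ⊕ ν))),
        (d k : ℤ)))).Holds φ s v ↔ F.Holds φ s (fun k => g k v) := by
    intro Γ φ s v
    refine SA_holds_trans _ _ φ s v _ (fun k => ?_) F
    show ((g k v : ℕ) : ℤ) = _
    rw [SC_sum_pos, h]
    push_cast
    ring
  obtain ⟨G, key⟩ : ∃ G : Fml ν, ∀ (Γ : Type) (φ : Fin 6 → Γ) (s : ℕ → List Γ) (v : ν → ℕ),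
      G.Holds φ s v ↔ F.Holds φ s (fun k => g k v) := ⟨_, key⟩
  refine ⟨G, ?_, ?_⟩
  · intro v hv
    obtain ⟨s, hs, hh⟩ := hF1 _ hv
    exact ⟨s, hs, (key _ id s v).2 hh⟩
  · intro Γ φ hφ s v hs hh
    exact hF2 Γ φ hφ s _ hs ((key Γ φ s v).1 hh)

/-- A relation that is definable stays definable when number variables are renamed. -/
theorem LD.mapN {ν μ : Type} (e : ν → μ) {R : (ν → ℕ) → Prop} (hR : LD R) :
    LD (fun v : μ → ℕ => R (fun k => v (e k))) := by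
  obtain ⟨F, hF1, hF2⟩ := hR
  have key : ∀ (Γ : Type) (φ : Fin 6 → Γ) (s : ℕ → List Γ) (v : μ → ℕ),
      (F.trans id (fun k => ([((1 : ℤ), (Sum.inr (e k) : ℕ ⊕ μ))], 0))).Holds φ s v ↔
        F.Holds φ s (fun k => v (e k)) := by
    intro Γ φ s v
    refine SA_holds_trans _ _ φ s v _ (fun k => ?_) F
    simp [SA_ev]
  obtain ⟨G, key⟩ : ∃ G : Fml μ, ∀ (Γ : Type) (φ : Fin 6 → Γ) (s : ℕ → List Γ) (v : μ → ℕ),
      G.Holds φ s v ↔ F.Holds φ s (fun k => v (e k)) := ⟨_, key⟩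
  refine ⟨G, ?_, ?_⟩
  · intro v hv
    obtain ⟨s, hs, hh⟩ := hF1 _ hv
    exact ⟨s, hs, (key _ id s v).2 hh⟩
  · intro Γ φ hφ s v hs hh
    exact hF2 Γ φ hφ s _ hs ((key Γ φ s v).1 hh)

/-- Substituting the variables of an affine function by variables. -/
theorem Aff.mapN {ν μ : Type} (e : ν → μ) {f : (ν → ℕ) → ℕ} (hf : Aff f) :
    Aff (fun v : μ → ℕ => f (fun k => v (e k))) := by
  obtain ⟨l, d, h⟩ := hf
  refine ⟨l.map (fun t => (t.1, e t.2)), d, fun v => ?_⟩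
  show f (fun k => v (e k)) = _
  rw [h, List.map_map]
  rfl

/-- row S3 -/
theorem LD.le {ν : Type} {f g : (ν → ℕ) → ℕ} (hf : Aff f) (hg : Aff g) :
    LD (fun v => f v ≤ g v) := by
  have h1 : LD (fun w : ν ⊕ Fin 1 → ℕ =>
      f (fun k => w (Sum.inl k)) + w (Sum.inr 0) = g (fun k => w (Sum.inl k))) :=
    LD.eq ((hf.mapN Sum.inl).add (Aff.var _)) (hg.mapN Sum.inl)
  have h2 := LD.ex h1
  have h3 : (fun v : ν → ℕ => ∃ x : Fin 1 → ℕ, f (fun k => (Sum.elim v x) (Sum.inl k)) +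
      (Sum.elim v x) (Sum.inr 0) = g (fun k => (Sum.elim v x) (Sum.inl k))) =
      fun v => f v ≤ g v := by
    funext v
    refine propext ⟨?_, fun h => ⟨fun _ => g v - f v, ?_⟩⟩
    · rintro ⟨x, hx⟩
      have hx : f v + x 0 = g v := hx
      omega
    · show f v + (g v - f v) = g v
      omega
  rw [← h3]
  exact h2

end WE57b
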