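import Pool.Agent.Lib.WE57b.SC
import Pool.Agent.Lib.MP_57b0a1_wl.W

namespace WE57b

/-- The letters `a_i`. -/
def S4_a : Fin 3 → Fin 6 := ![0, 1, 2]

/-- The letters `b_i`. -/
def S4_b : Fin 3 → Fin 6 := ![3, 4, 5]

/-- The part of the formula for the index `i`. Words: 0 = w, 1+i = alpha_i, 4+i = [a_i],
7+i = [b_i], 10+i = u_i, 13+i = alpha_i a_i = a_i alpha_i, 17+i = w u_i, 20+i = y_i, 23+i = z_i,
26+i = y_i w u_i = w u_i z_i. -/
def S4_part (i : Fin 3) (j k : Fin 6) : Fml (Fin 6) :=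
  .and (.and (.and (.const (4 + i) (S4_a i)) (.const (7 + i) (S4_b i)))
      (.and (.cat (10 + i) (1 + i) (7 + i)) (.and (.cat (13 + i) (1 + i) (4 + i))
        (.cat (13 + i) (4 + i) (1 + i)))))
    (.and (.and (.lin [(1, Sum.inl (1 + i)), (-1, Sum.inr j)] (-1))
        (.lin [(1, Sum.inl (20 + i)), (-1, Sum.inr k)] 0))
      (.and (.cat (17 + i) 0 (10 + i)) (.and (.cat (26 + i) (20 + i) (17 + i))
        (.cat (26 + i) (17 + i) (23 + i)))))

/-- The word `w` starts with `u_m`. -/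
def S4_start (m : ℕ) : Fml (Fin 6) := .or (.cat 0 (1 + m) (7 + m)) (.cat 0 (10 + m) 16)

/-- The formula. -/
def S4_fml : Fml (Fin 6) :=
  .and (.and (S4_part 0 0 3) (.and (S4_part 1 1 4) (S4_part 2 2 5)))
    (.and (.or (S4_start 0) (.or (S4_start 1) (S4_start 2)))
      (.lin [(2, Sum.inl 0), (1, Sum.inr 0), (1, Sum.inr 1), (1, Sum.inr 2), (-1, Sum.inr 3),
        (-1, Sum.inr 4), (-1, Sum.inr 5)] 0))

/-- The words. -/
def S4_asg (s : Fin 3 → ℕ) (w w' : List (Fin 6)) (y z : Fin 3 → List (Fin 6)) :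
    ℕ → List (Fin 6)
  | 0 => w
  | 1 => List.replicate (s 0 - 1) 0
  | 2 => List.replicate (s 1 - 1) 1
  | 3 => List.replicate (s 2 - 1) 2
  | 4 => [0]
  | 5 => [1]
  | 6 => [2]
  | 7 => [3]
  | 8 => [4]
  | 9 => [5]
  | 10 => List.replicate (s 0 - 1) 0 ++ [3]
  | 11 => List.replicate (s 1 - 1) 1 ++ [4]
  | 12 => List.replicate (s 2 - 1) 2 ++ [5]
  | 13 => List.replicate (s 0 - 1) 0 ++ [0]
  | 14 => List.replicate (s 1 - 1) 1 ++ [1]
  | 15 => List.replicate (s 2 - 1) 2 ++ [2]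
  | 16 => w'
  | 17 => w ++ (List.replicate (s 0 - 1) 0 ++ [3])
  | 18 => w ++ (List.replicate (s 1 - 1) 1 ++ [4])
  | 19 => w ++ (List.replicate (s 2 - 1) 2 ++ [5])
  | 20 => y 0
  | 21 => y 1
  | 22 => y 2
  | 23 => z 0
  | 24 => z 1
  | 25 => z 2
  | 26 => y 0 ++ (w ++ (List.replicate (s 0 - 1) 0 ++ [3]))
  | 27 => y 1 ++ (w ++ (List.replicate (s 1 - 1) 1 ++ [4]))
  | 28 => y 2 ++ (w ++ (List.replicate (s 2 - 1) 2 ++ [5]))
  | _ => [0]

theorem S4_commute_letter {Γ : Type} {a : Γ} {w : List Γ} (h : w ++ [a] = [a] ++ w) :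
    w = List.replicate w.length a := by
  induction w with
  | nil => rfl
  | cons x w ih =>
    rw [List.cons_append, List.singleton_append, List.cons.injEq] at h
    obtain ⟨rfl, h2⟩ := h
    rw [List.length_cons, List.replicate_succ, ← ih (by rw [h2]; rfl)]

theorem S4_bridge (a b c x y z : ℕ) :
    AR3 a b c x y z ↔ Pool.WL.AR ![a, b, c] ![x, y, z] := by
  constructor
  · intro h
    induction h with
    | base => exact Pool.WL.AR.refl
    | op1 _ ih =>
      convert Pool.WL.AR.step 0 _ ih using 1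
      ext i; fin_cases i <;> simp [Pool.WL.op]
    | op2 _ ih =>
      convert Pool.WL.AR.step 1 _ ih using 1
      ext i; fin_cases i <;> simp [Pool.WL.op]
    | op3 _ ih =>
      convert Pool.WL.AR.step 2 _ ih using 1
      ext i; fin_cases i <;> simp [Pool.WL.op]
  · intro h
    have key : ∀ V, Pool.WL.AR ![a, b, c] V → AR3 a b c (V 0) (V 1) (V 2) := by
      intro V hV
      induction hV with
      | refl => exact AR3.base
      | step j V _ ih =>
        fin_cases j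
        · simpa [Pool.WL.op] using AR3.op1 ih
        · simpa [Pool.WL.op] using AR3.op2 ih
        · simpa [Pool.WL.op] using AR3.op3 ih
    simpa using key _ h

theorem S4_pos {s V : Pool.WL.V3} (h : Pool.WL.AR s V) (hs : ∀ i, 1 ≤ s i) :
    ∀ i, 1 ≤ V i := by
  induction h with
  | refl => exact hs
  | step j V _ ih =>
    intro i
    unfold Pool.WL.op
    have := ih i
    split <;> omega

theorem S4_part_sound {Γ : Type} {φ : Fin 6 → Γ} {s : ℕ → List Γ} {v : Fin 6 → ℕ}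
    (hs : ∀ i, s i ≠ []) {i : Fin 3} {j k : Fin 6} (h : (S4_part i j k).Holds φ s v) :
    2 ≤ v j ∧ 1 ≤ v k ∧ s (1 + i) ++ s (7 + i) = Pool.WL.blk (φ (S4_a i)) (φ (S4_b i)) (v j) ∧
      s (10 + i) = Pool.WL.blk (φ (S4_a i)) (φ (S4_b i)) (v j) ∧
      Pool.WL.Per (s 0 ++ Pool.WL.blk (φ (S4_a i)) (φ (S4_b i)) (v j)) (v k) := by
  simp only [S4_part, Fml.Holds] at h
  obtain ⟨⟨⟨h1, h2⟩, h3, h4, h5⟩, ⟨h6, h7⟩, h8, h9, h10⟩ := h
  have h11 : 1 ≤ (s (1 + i)).length := List.length_pos_iff.mpr (hs _)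
  have h12 : 1 ≤ (s (20 + i)).length := List.length_pos_iff.mpr (hs _)
  simp at h6 h7
  have hn : (s (1 + i)).length = v j - 1 := by omega
  have hα : s (1 + i) = List.replicate (v j - 1) (φ (S4_a i)) := by
    rw [← hn]
    exact S4_commute_letter (by rw [← h1, ← h4, h5])
  have hu : s (10 + i) = Pool.WL.blk (φ (S4_a i)) (φ (S4_b i)) (v j) := by
    unfold Pool.WL.blk; rw [h3, h2, hα]
  refine ⟨by omega, by omega, by rw [← h3, hu], hu, s (20 + i), s (23 + i), by omega, ?_⟩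
  rw [← hu, ← h8, ← h9, h10]

theorem S4_aux : LD (fun v : Fin 6 → ℕ => (2 ≤ v 0 ∧ 2 ≤ v 1 ∧ 2 ≤ v 2 ∧
    AR3 (v 0) (v 1) (v 2) (v 3) (v 4) (v 5)) ∧ ¬ (v 3 = v 0 ∧ v 4 = v 1 ∧ v 5 = v 2)) := by
  refine ⟨S4_fml, ?_, ?_⟩
  · rintro v ⟨⟨h0, h1, h2, h⟩, hne⟩
    rw [S4_bridge] at h
    obtain ⟨w, hw, -, hlen, hper, m, w', hm⟩ := Pool.WL.ar_words' S4_a S4_b ![v 0, v 1, v 2]
      ![v 3, v 4, v 5] (by intro i; fin_cases i <;> simp <;> omega) h
      (by
        intro e
        apply hne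
        exact ⟨congrFun e 0, congrFun e 1, congrFun e 2⟩)
    choose y z hy hz hyz _ _ using hper
    have hw' : ∃ w'' : List (Fin 6), w'' ≠ [] ∧ (w' = [] ∨ w'' = w') := by
      by_cases e : w' = []
      · exact ⟨[0], by simp, Or.inl e⟩
      · exact ⟨w', e, Or.inr rfl⟩
    obtain ⟨w'', hw1, hw2⟩ := hw'
    have hlec : ∀ i : Fin 3, 2 ≤ (![v 0, v 1, v 2] : Fin 3 → ℕ) i := by
      intro i; fin_cases i <;> simpa
    have hle : ∀ i : Fin 3, 1 ≤ (![v 3, v 4, v 5] : Fin 3 → ℕ) i :=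
      S4_pos h (fun i => by have := hlec i; omega)
    have hy0 : ∀ i, y i ≠ [] := fun i e => by
      have := hle i; rw [← hy i, e] at this; simp at this
    have hz0 : ∀ i, z i ≠ [] := fun i e => by
      have := hle i; rw [← hz i, e] at this; simp at this
    have hr : ∀ (n : ℕ) (a : Fin 6), 2 ≤ n → List.replicate (n - 1) a ≠ [] := by
      intro n a hn e
      have := congrArg List.length e
      simp at this; omega
    refine ⟨S4_asg ![v 0, v 1, v 2] w w'' y z, ?_, ?_⟩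
    · intro i
      unfold S4_asg
      split <;> simp_all
    · have hrep : ∀ (n : ℕ) (a : Fin 6),
          List.replicate n a ++ [a] = [a] ++ List.replicate n a := by
        intro n a
        rw [← List.replicate_succ', List.singleton_append, List.replicate_succ]
      have hpart : ∀ (i : Fin 3) (j k : Fin 6), (![v 0, v 1, v 2] : Fin 3 → ℕ) i = v j →
          (![v 3, v 4, v 5] : Fin 3 → ℕ) i = v k →
          (S4_part i j k).Holds id (S4_asg ![v 0, v 1, v 2] w w'' y z) v := by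
        intro i j k hj hk
        have l1 := hlec i
        have l2 := hy i
        have l3 := hyz i
        rw [hj] at l1
        rw [hk] at l2
        fin_cases i
        · refine ⟨⟨⟨rfl, rfl⟩, rfl, rfl, hrep _ _⟩, ⟨?_, ?_⟩, rfl, rfl, l3⟩
          · simp at hj
            simp [Fml.Holds, S4_asg]; omega
          · simp at l2
            simp [Fml.Holds, S4_asg, l2]
        · refine ⟨⟨⟨rfl, rfl⟩, rfl, rfl, hrep _ _⟩, ⟨?_, ?_⟩, rfl, rfl, l3⟩
          · simp at hj
            simp [Fml.Holds, S4_asg]; omega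
          · simp at l2
            simp [Fml.Holds, S4_asg, l2]
        · refine ⟨⟨⟨rfl, rfl⟩, rfl, rfl, hrep _ _⟩, ⟨?_, ?_⟩, rfl, rfl, l3⟩
          · simp at hj
            simp [Fml.Holds, S4_asg]; omega
          · simp at l2
            simp [Fml.Holds, S4_asg, l2]
      refine ⟨⟨hpart 0 0 3 rfl rfl, hpart 1 1 4 rfl rfl, hpart 2 2 5 rfl rfl⟩, ?_, ?_⟩
      · have hst : ∀ m' : Fin 3, m' = m → (S4_start m').Holds id
            (S4_asg ![v 0, v 1, v 2] w w'' y z) v := by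
          rintro m' rfl
          rcases hw2 with e | e
          · left
            rw [e, List.append_nil] at hm
            fin_cases m' <;> exact hm.symm
          · right
            rw [← e] at hm
            fin_cases m' <;> exact hm.symm
        fin_cases m
        · exact Or.inl (hst 0 rfl)
        · exact Or.inr (Or.inl (hst 1 rfl))
        · exact Or.inr (Or.inr (hst 2 rfl))
      · simp [Fml.Holds, S4_asg]
        simp at hlen
        omega
  · intro Γ φ hφ s v hs h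
    obtain ⟨⟨p0, p1, p2⟩, hst, hlen⟩ := h
    obtain ⟨a1, b1, c1, d1, e1⟩ := S4_part_sound hs p0
    obtain ⟨a2, b2, c2, d2, e2⟩ := S4_part_sound hs p1
    obtain ⟨a3, b3, c3, d3, e3⟩ := S4_part_sound hs p2
    simp only [Fml.Holds] at hlen
    have h11 : 1 ≤ (s 0).length := List.length_pos_iff.mpr (hs _)
    simp at hlen
    refine ⟨⟨a1, a2, a3, ?_⟩, fun ⟨e1, e2, e3⟩ => by omega⟩
    rw [S4_bridge, Pool.WL.ar_words (φ ∘ S4_a) (φ ∘ S4_b)]
    · right
      refine ⟨s 0, ?_, ?_, ?_⟩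
      · simp; omega
      · intro i; fin_cases i
        · exact e1
        · exact e2
        · exact e3
      · rcases hst with (h | h) | (h | h) | (h | h)
        · exact ⟨0, [], by simpa [Fml.Holds] using (h.trans c1).symm⟩
        · exact ⟨0, s 16, by rw [show s 0 = s 10 ++ s 16 from h]; exact congrArg (· ++ s 16) d1.symm⟩
        · exact ⟨1, [], by simpa [Fml.Holds] using (h.trans c2).symm⟩
        · exact ⟨1, s 16, by rw [show s 0 = s 11 ++ s 16 from h]; exact congrArg (· ++ s 16) d2.symm⟩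
        · exact ⟨2, [], by simpa [Fml.Holds] using (h.trans c3).symm⟩
        · exact ⟨2, s 16, by rw [show s 0 = s 12 ++ s 16 from h]; exact congrArg (· ++ s 16) d3.symm⟩
    · exact hφ.comp (by decide)
    · exact hφ.comp (by decide)
    · intro i j e
      have := hφ e
      revert this
      fin_cases i <;> fin_cases j <;> decide
    · intro i; fin_cases i <;> simp <;> omega
    · intro i; fin_cases i <;> simp <;> omega

/-- row S4: the Arnoux-Rauzy relation -/
theorem LD_AR : LD (fun v : Fin 6 → ℕ => 2 ≤ v 0 ∧ 2 ≤ v 1 ∧ 2 ≤ v 2 ∧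
    AR3 (v 0) (v 1) (v 2) (v 3) (v 4) (v 5)) := by
  have V : ∀ i : Fin 6, Aff (fun v : Fin 6 → ℕ => v i) := fun i => Aff.var i
  have C : Aff (fun _ : Fin 6 → ℕ => 2) := Aff.const 2
  have h1 := (((LD.le C (V 0)).and ((LD.le C (V 1)).and (LD.le C (V 2)))).and
    ((LD.eq (V 3) (V 0)).and ((LD.eq (V 4) (V 1)).and (LD.eq (V 5) (V 2))))).or S4_aux
  convert h1 using 2 with v
  constructor
  · rintro ⟨h2, h3, h4, h5⟩
    by_cases h0 : v 3 = v 0 ∧ v 4 = v 1 ∧ v 5 = v 2
    · exact Or.inl ⟨⟨h2, h3, h4⟩, h0⟩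
    · exact Or.inr ⟨⟨h2, h3, h4, h5⟩, h0⟩
  · rintro (⟨⟨h2, h3, h4⟩, h5, h6, h7⟩ | ⟨h2, -⟩)
    · refine ⟨h2, h3, h4, ?_⟩
      rw [h5, h6, h7]; exact AR3.base
    · exact h2

end WE57b
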